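import Pool.Agent.MP_760060_nt.Dig

/-! Exponential sums over digit strings and their reversals. -/

namespace Pool.Agent.MP_760060_nt

open Finset
open scoped ComplexConjugate

noncomputable def Phi (g : ℕ) (α β : ℂ) : ℂ := ∑ z ∈ range (10 ^ g), α ^ z * β ^ R g z

noncomputable def Dg (z : ℂ) : ℂ := ∑ d ∈ range 10, z ^ d

noncomputable def kap : ℝ := 1 - 1 / 2000000

lemma Phi_add (a b : ℕ) (α β : ℂ) :
    Phi (a + b) α β = Phi a α (β ^ 10 ^ b) * Phi b (α ^ 10 ^ a) β := by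
  rw [Phi, pow_add, sum_block, Phi, Phi, sum_mul_sum, sum_comm]
  refine sum_congr rfl fun x hx => sum_congr rfl fun y _ => ?_
  rw [R_add a b y (mem_range.1 hx), pow_add, pow_add, pow_mul, pow_mul]
  ring

lemma Phi_succ (g : ℕ) (α β : ℂ) :
    Phi (g + 1) α β = Dg (α * β ^ 10 ^ g) * Phi g (α ^ 10) β := by
  rw [add_comm, Phi_add, pow_one, Phi, Dg, pow_one]
  congr 1
  refine sum_congr rfl fun d hd => ?_
  rw [R_one (mem_range.1 hd), mul_pow]

lemma pow_sub_one_le {z : ℂ} (hz : ‖z‖ = 1) (n : ℕ) : ‖z ^ n - 1‖ ≤ n * ‖z - 1‖ := by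
  induction n with
  | zero => simp
  | succ n ih =>
    have e : z ^ (n + 1) - 1 = z * (z ^ n - 1) + (z - 1) := by ring
    rw [e]
    refine (norm_add_le _ _).trans ?_
    rw [norm_mul, hz]
    push_cast
    linarith

lemma geom_near {z : ℂ} (hz : ‖z‖ = 1) (n : ℕ) :
    ‖∑ d ∈ range n, z ^ d - n‖ ≤ n * (n * ‖z - 1‖) := by
  have e : ∑ d ∈ range n, z ^ d - n = ∑ d ∈ range n, (z ^ d - 1) := by simp
  rw [e]
  refine (norm_sum_le _ _).trans ((sum_le_card_nsmul _ _ (n * ‖z - 1‖) fun d hd => ?_).trans ?_)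
  · refine (pow_sub_one_le hz d).trans (mul_le_mul_of_nonneg_right ?_ (norm_nonneg _))
    exact_mod_cast (mem_range.1 hd).le
  · simp

lemma root_far {z : ℂ} {p : ℕ} (hp : p ≠ 0) (h : z ^ p = 1) (h1 : z ≠ 1) : 1 ≤ p * ‖z - 1‖ := by
  have h2 := geom_near (Complex.norm_eq_one_of_pow_eq_one h hp) p
  have h3 : ∑ d ∈ range p, z ^ d = 0 := by
    have := geom_sum_mul z p
    rw [h, sub_self] at this
    exact (mul_eq_zero.1 this).resolve_right (sub_ne_zero.2 h1)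
  have h4 : (0 : ℝ) < p := Nat.cast_pos.2 (Nat.pos_of_ne_zero hp)
  rw [h3, zero_sub, norm_neg, Complex.norm_natCast] at h2
  exact le_of_mul_le_mul_left (by rwa [mul_one]) h4

lemma grow {z : ℂ} (hz : ‖z‖ = 1) (h : ‖z - 1‖ ≤ 1 / 20) : 5 * ‖z - 1‖ ≤ ‖z ^ 10 - 1‖ := by
  have h1 := geom_near hz 10
  have h2 := norm_sub_norm_le ((10 : ℕ) : ℂ) (∑ d ∈ range 10, z ^ d)
  rw [norm_sub_rev, Complex.norm_natCast] at h2
  rw [← geom_sum_mul, norm_mul]
  push_cast at h1 h2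
  exact mul_le_mul_of_nonneg_right (by linarith) (norm_nonneg _)

lemma window {w : ℂ} {p l : ℕ} (hp : p ≠ 0) (h : w ^ p = 1) (h1 : w ≠ 1) (hl : p ≤ 10 ^ l) :
    ∃ j ≤ 2 * l, 1 / 20 ≤ ‖w ^ 10 ^ j - 1‖ := by
  by_contra hc
  push Not at hc
  have hw := Complex.norm_eq_one_of_pow_eq_one h hp
  have key : ∀ j ≤ 2 * l, 5 ^ j * ‖w - 1‖ ≤ ‖w ^ 10 ^ j - 1‖ := by
    intro j hj
    induction j with
    | zero => simp
    | succ j ih =>
      have h2 := grow (z := w ^ 10 ^ j) (by rw [norm_pow, hw, one_pow]) (hc j (by omega)).le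
      rw [← pow_mul, ← pow_succ] at h2
      have h3 := ih (by omega)
      rw [pow_succ]
      linarith
  have h2 := key _ le_rfl
  have h3 := hc _ le_rfl
  have h4 := root_far hp h h1
  have h5 : (p : ℝ) ≤ 5 ^ (2 * l) := by
    rw [pow_mul]
    exact le_trans (b := 10 ^ l) (by exact_mod_cast hl)
      (pow_le_pow_left₀ (by norm_num) (by norm_num) l)
  have h6 := mul_le_mul_of_nonneg_right h5 (norm_nonneg (w - 1))
  linarith

lemma Dg_le {z : ℂ} (hz : ‖z‖ = 1) : ‖Dg z‖ ≤ 10 - ‖z - 1‖ ^ 2 / 4 := by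
  have h1 := parallelogram_law_with_norm ℂ z 1
  rw [hz, norm_one] at h1
  have h2 : ‖z + 1‖ ≤ 2 - ‖z - 1‖ ^ 2 / 4 := by
    nlinarith [sq_nonneg (‖z + 1‖ - 2)]
  have e : Dg z = (z + 1) + ∑ d ∈ range 8, z ^ (d + 2) := by
    simp only [Dg, sum_range_succ, sum_range_zero]
    ring
  have h3 : ‖∑ d ∈ range 8, z ^ (d + 2)‖ ≤ 8 := by
    refine (norm_sum_le _ _).trans ?_
    simp [hz]
  rw [e]
  exact (norm_add_le _ _).trans (by linarith)

lemma Dg_pair {A B : ℂ} (hA : ‖A‖ = 1) (hB : ‖B‖ = 1) (h : 1 / 20 ≤ ‖A ^ 10 - B‖) :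
    ‖Dg A‖ * ‖Dg B‖ ≤ 100 * kap := by
  have h1 := pow_sub_one_le hA 10
  have h2 : ‖A ^ 10 - B‖ ≤ ‖A ^ 10 - 1‖ + ‖B - 1‖ := by
    refine le_trans (le_of_eq ?_) (norm_sub_le _ _)
    congr 1
    ring
  push_cast at h1
  have a1 := Dg_le hA
  have a2 := Dg_le hB
  have a3 := sq_nonneg ‖A - 1‖
  have a4 := sq_nonneg ‖B - 1‖
  unfold kap
  rcases le_total (1 / 220) ‖A - 1‖ with h3 | h3
  · have h4 : (1 / 220 : ℝ) ^ 2 ≤ ‖A - 1‖ ^ 2 := pow_le_pow_left₀ (by norm_num) h3 2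
    calc _ ≤ (10 - 1 / 200000) * 10 :=
          mul_le_mul (by linarith) (by linarith) (norm_nonneg _) (by norm_num)
      _ = _ := by norm_num
  · have h4 : (1 / 220 : ℝ) ^ 2 ≤ ‖B - 1‖ ^ 2 := pow_le_pow_left₀ (by norm_num) (by linarith) 2
    calc _ ≤ 10 * (10 - 1 / 200000) :=
          mul_le_mul (by linarith) (by linarith) (norm_nonneg _) (by norm_num)
      _ = _ := by norm_num

/-- A uniform bound for the sums of length `g`. -/
def Bd (β : ℂ) (g : ℕ) (c : ℝ) : Prop := ∀ α : ℂ, ‖α‖ = 1 → ‖Phi g α β‖ ≤ 10 ^ g * c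

lemma Bd.succ {β : ℂ} {g : ℕ} {c : ℝ} (h : Bd β g c) (hβ : ‖β‖ = 1) : Bd β (g + 1) c := by
  intro α hα
  have h1 := Dg_le (z := α * β ^ 10 ^ g) (by simp [hα, hβ])
  rw [Phi_succ, norm_mul, pow_succ' _ g, mul_assoc]
  exact mul_le_mul (by nlinarith) (h _ (by simp [hα])) (norm_nonneg _) (by norm_num)

lemma Bd.mono {β : ℂ} {g g' : ℕ} {c : ℝ} (h : Bd β g c) (hβ : ‖β‖ = 1) (hg : g ≤ g') :
    Bd β g' c := by
  induction hg with
  | refl => exact h
  | step _ ih => exact ih.succ hβ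

lemma Bd.two {β : ℂ} {g : ℕ} {c : ℝ} (h : Bd β g c) (hβ : ‖β‖ = 1)
    (hg : 1 / 20 ≤ ‖β ^ (99 * 10 ^ g) - 1‖) : Bd β (g + 2) (kap * c) := by
  intro α hα
  have hB : ‖α ^ 10 * β ^ 10 ^ g‖ = 1 := by simp [hα, hβ]
  have h1 := Dg_pair (A := α * β ^ 10 ^ (g + 1)) (by simp [hα, hβ]) hB (by
    have e : (α * β ^ 10 ^ (g + 1)) ^ 10 - α ^ 10 * β ^ 10 ^ g =
        α ^ 10 * β ^ 10 ^ g * (β ^ (99 * 10 ^ g) - 1) := by
      rw [mul_pow, ← pow_mul, mul_sub, mul_assoc, ← pow_add, mul_one]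
      congr 3
      ring
    rwa [e, norm_mul, hB, one_mul])
  rw [Phi_succ, Phi_succ, norm_mul, norm_mul, ← mul_assoc]
  refine (mul_le_mul h1 (h _ (by simp [hα])) (norm_nonneg _) (by unfold kap; norm_num)).trans
    (le_of_eq (by ring))

lemma Bd_save {β : ℂ} {p l : ℕ} (hp : p ≠ 0) (h : β ^ p = 1) (h1 : ∀ j, β ^ (99 * 10 ^ j) ≠ 1)
    (hl : p ≤ 10 ^ l) (s : ℕ) : Bd β (s * (2 * l + 2)) (kap ^ s) := by
  have hβ := Complex.norm_eq_one_of_pow_eq_one h hp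
  induction s with
  | zero =>
    intro α _
    simp [Phi, R]
  | succ s ih =>
    obtain ⟨j, hj, h2⟩ := window (w := β ^ (99 * 10 ^ (s * (2 * l + 2)))) hp
      (by rw [← pow_mul, mul_comm, pow_mul, h, one_pow]) (h1 _) hl
    rw [← pow_mul, mul_assoc, ← pow_add] at h2
    rw [pow_succ']
    exact ((ih.mono hβ (Nat.le_add_right _ j)).two hβ h2).mono hβ (by rw [add_mul s 1]; omega)

lemma parseval {A : Type} [AddCommGroup A] [Fintype A] [DecidableEq A] (s : Finset ℕ) (f : ℕ → A)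
    (w : ℕ → ℂ) (hw : ∀ x, ‖w x‖ = 1) (C : ℝ)
    (hC : ∀ x ∈ s, ((s.filter fun y => f x = f y).card : ℝ) ≤ C) :
    ∑ ψ : AddChar A ℂ, ‖∑ x ∈ s, ψ (f x) * w x‖ ^ 2 ≤ Fintype.card A * (s.card * C) := by
  have e : ((∑ ψ : AddChar A ℂ, ‖∑ x ∈ s, ψ (f x) * w x‖ ^ 2 : ℝ) : ℂ) =
      ∑ x ∈ s, ∑ y ∈ s, w x * conj (w y) * if f x = f y then (Fintype.card A : ℂ) else 0 := by
    push_cast
    simp_rw [← Complex.mul_conj', map_sum, sum_mul_sum]
    rw [sum_comm]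
    refine sum_congr rfl fun x _ => ?_
    rw [sum_comm]
    refine sum_congr rfl fun y _ => ?_
    simp only [← sub_eq_zero (a := f x)]
    rw [← AddChar.sum_apply_eq_ite, mul_sum]
    refine sum_congr rfl fun ψ _ => ?_
    rw [sub_eq_add_neg, AddChar.map_add_eq_mul, AddChar.map_neg_eq_conj, map_mul]
    ring
  have e2 := congrArg (fun z : ℂ => ‖z‖) e
  simp only [Complex.norm_real, Real.norm_eq_abs] at e2
  refine (le_abs_self _).trans (e2.le.trans ((norm_sum_le _ _).trans ?_))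
  refine (sum_le_card_nsmul _ _ (Fintype.card A * C) fun x hx => ?_).trans
    (le_of_eq (by rw [nsmul_eq_mul]; ring))
  refine (norm_sum_le _ _).trans (le_trans (le_of_eq ?_)
    (mul_le_mul_of_nonneg_left (hC x hx) (Nat.cast_nonneg _)))
  rw [card_filter]
  push_cast
  rw [mul_sum]
  refine sum_congr rfl fun y _ => ?_
  split_ifs <;> simp [hw]

lemma card_mod {A Q : ℕ} (hQ : 0 < Q) (hA : Q ≤ A) (t : ℕ) :
    (((range A).filter fun y => t ≡ y [MOD Q]).card : ℝ) ≤ 2 * A / Q := by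
  have h1 : ((range A).filter fun y => t ≡ y [MOD Q]).card ≤ (range (A / Q + 1)).card := by
    refine card_le_card_of_injOn (fun y => y / Q) (fun y hy => ?_) (fun y hy z hz h => ?_)
    · have := mem_range.1 (mem_filter.1 hy).1
      exact mem_coe.2 (mem_range.2 (Nat.lt_succ_of_le (Nat.div_le_div_right this.le)))
    · have h2 : y % Q = z % Q := (mem_filter.1 hy).2.symm.trans (mem_filter.1 hz).2
      rw [← Nat.div_add_mod y Q, ← Nat.div_add_mod z Q, h2, show y / Q = z / Q from h]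
  have hQ' : (0 : ℝ) < Q := by exact_mod_cast hQ
  have h2 : ((A / Q : ℕ) : ℝ) ≤ A / Q := Nat.cast_div_le
  have h3 : (1 : ℝ) ≤ A / Q := (one_le_div hQ').2 (by exact_mod_cast hA)
  have h4 : (((range A).filter fun y => t ≡ y [MOD Q]).card : ℝ) ≤ (A / Q : ℕ) + 1 := by
    rw [card_range] at h1
    exact_mod_cast h1
  rw [mul_div_assoc]
  linarith

lemma chi_nat {Q : ℕ} (ψ : AddChar (ZMod Q) ℂ) (m : ℕ) : ψ m = ψ 1 ^ m := by
  rw [← AddChar.map_nsmul_eq_pow, nsmul_eq_mul, mul_one]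

lemma Phi_sq {Q a u : ℕ} [NeZero Q] (hA : Q ≤ 10 ^ a) (hu : Q.Coprime u) {β : ℂ} (hβ : ‖β‖ = 1) :
    ∑ ψ : AddChar (ZMod Q) ℂ, ‖Phi a (ψ 1 ^ u) β‖ ^ 2 ≤ 2 * (10 ^ a) ^ 2 := by
  have hQ : (0 : ℝ) < Q := Nat.cast_pos.2 (NeZero.pos Q)
  have h := parseval (range (10 ^ a)) (fun x => ((u * x : ℕ) : ZMod Q)) (fun x => β ^ R a x)
    (fun x => by simp [hβ]) (2 * (10 ^ a : ℕ) / Q) (fun x _ => by
      refine le_trans ?_ (card_mod (NeZero.pos Q) hA x)
      exact_mod_cast card_le_card (monotone_filter_right _ fun y _ hy =>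
        Nat.ModEq.cancel_left_of_coprime hu ((ZMod.natCast_eq_natCast_iff _ _ _).1 hy)))
  simp only [chi_nat, pow_mul, ZMod.card, card_range] at h
  refine h.trans (le_of_eq ?_)
  push_cast
  field_simp

lemma twisted {Q a g : ℕ} (hQ : 0 < Q) (hA : Q ≤ 10 ^ a) (hc : Q.Coprime 10) {β : ℂ} (hβ : ‖β‖ = 1)
    {c : ℝ} (hc0 : 0 ≤ c) (h : Bd β g c) (t : ℕ) :
    ‖∑ m ∈ (range (10 ^ (a + (a + g)))).filter fun m => t ≡ m [MOD Q], β ^ R (a + (a + g)) m‖ ≤
      2 * 10 ^ (a + (a + g)) / Q * c := by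
  have : NeZero Q := ⟨hQ.ne'⟩
  have hQ' : (0 : ℝ) < Q := by exact_mod_cast hQ
  have e : (Q : ℂ) * ∑ m ∈ (range (10 ^ (a + (a + g)))).filter fun m => t ≡ m [MOD Q],
      β ^ R (a + (a + g)) m = ∑ ψ : AddChar (ZMod Q) ℂ, ψ (-t) * Phi (a + (a + g)) (ψ 1) β := by
    simp_rw [Phi, mul_sum]
    rw [sum_comm, sum_filter]
    refine sum_congr rfl fun m _ => ?_
    simp_rw [← chi_nat, ← mul_assoc, ← AddChar.map_add_eq_mul]
    rw [← sum_mul, AddChar.sum_apply_eq_ite, ZMod.card]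
    simp only [neg_add_eq_zero, ZMod.natCast_eq_natCast_iff, ite_mul, zero_mul]
  have e2 := congrArg (fun z : ℂ => ‖z‖) e
  simp only [norm_mul, Complex.norm_natCast] at e2
  rw [div_mul_eq_mul_div, le_div_iff₀' hQ', e2]
  have h1 := Phi_sq (u := 1) hA (Nat.coprime_one_right Q) (β := β ^ 10 ^ (a + g)) (by simp [hβ])
  have h2 := Phi_sq (u := 10 ^ a) hA (Nat.Coprime.pow_right a hc) (β := β ^ 10 ^ g) (by simp [hβ])
  refine (norm_sum_le _ _).trans (le_trans (sum_le_sum (g := fun ψ : AddChar (ZMod Q) ℂ =>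
    (‖Phi a (ψ 1 ^ 1) (β ^ 10 ^ (a + g))‖ ^ 2 + ‖Phi a (ψ 1 ^ 10 ^ a) (β ^ 10 ^ g)‖ ^ 2) / 2 *
      (10 ^ g * c)) fun ψ _ => ?_) ?_)
  · rw [norm_mul, AddChar.norm_apply, one_mul, Phi_add, Phi_add, norm_mul, norm_mul, pow_one,
      ← mul_assoc]
    refine mul_le_mul ?_ (h _ (by simp)) (norm_nonneg _) (by positivity)
    nlinarith [sq_nonneg (‖Phi a (ψ 1) (β ^ 10 ^ (a + g))‖ - ‖Phi a (ψ 1 ^ 10 ^ a) (β ^ 10 ^ g)‖)]
  · rw [← sum_mul, ← sum_div, sum_add_distrib]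
    calc _ ≤ (2 * (10 ^ a) ^ 2 + 2 * (10 ^ a) ^ 2) / 2 * (10 ^ g * c) := by gcongr
      _ = _ := by ring

/-- A residue class for the number and a prime divisor of its reversal. -/
lemma joint {Q a g p l s : ℕ} (hQ : 0 < Q) (hA : Q ≤ 10 ^ a) (hc : Q.Coprime 10) (hp : p.Prime)
    (h11 : 11 < p) (hl : p ≤ 10 ^ l) (hg : s * (2 * l + 2) ≤ g) (t : ℕ) :
    (((range (10 ^ (a + (a + g)))).filter fun m => t ≡ m [MOD Q] ∧ p ∣ R (a + (a + g)) m).card : ℝ)
      ≤ 2 * 10 ^ (a + (a + g)) / Q * (1 / p + kap ^ s) := by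
  have := Fact.mk hp
  have hp' : (0 : ℝ) < p := by exact_mod_cast hp.pos
  have hk : 0 ≤ kap ^ s := pow_nonneg (by unfold kap; norm_num) s
  set k := a + (a + g) with hkdef
  have e : (p : ℂ) * (((range (10 ^ k)).filter fun m => t ≡ m [MOD Q] ∧ p ∣ R k m).card : ℂ) =
      ∑ χ : AddChar (ZMod p) ℂ, ∑ m ∈ (range (10 ^ k)).filter fun m => t ≡ m [MOD Q],
        χ 1 ^ R k m := by
    rw [sum_comm, ← filter_filter, card_filter]
    push_cast
    rw [mul_sum]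
    refine sum_congr rfl fun m _ => ?_
    simp_rw [← chi_nat]
    rw [AddChar.sum_apply_eq_ite, ZMod.card]
    simp only [ZMod.natCast_eq_zero_iff, mul_ite, mul_one, mul_zero]
  have e2 := congrArg (fun z : ℂ => ‖z‖) e
  simp only [norm_mul, Complex.norm_natCast] at e2
  refine le_of_mul_le_mul_left ?_ hp'
  rw [e2]
  refine (norm_sum_le _ _).trans (le_trans (sum_le_sum (g := fun χ : AddChar (ZMod p) ℂ =>
    2 * 10 ^ k / Q * ((if χ = 1 then 1 else 0) + kap ^ s)) fun χ _ => ?_) (le_of_eq ?_))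
  · split_ifs with h1
    · have h2 := card_mod hQ (hA.trans (Nat.pow_le_pow_right (by norm_num)
        (Nat.le_add_right a (a + g)))) t
      simp only [h1, AddChar.one_apply, one_pow, sum_const, nsmul_eq_mul, mul_one,
        Complex.norm_natCast]
      push_cast at h2
      exact h2.trans (le_mul_of_one_le_right (by positivity) (by linarith))
    · rw [zero_add]
      have h2 : χ 1 ^ p = 1 := by rw [← chi_nat, ZMod.natCast_self, AddChar.map_zero_eq_one]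
      refine twisted hQ hA hc (AddChar.norm_apply _ _) hk
        ((Bd_save hp.ne_zero h2 (fun j hj => ?_) hl s).mono (AddChar.norm_apply _ _) hg) t
      rw [← chi_nat, (AddChar.IsPrimitive.of_ne_one h1).zmod_char_eq_one_iff,
        ZMod.natCast_eq_zero_iff] at hj
      rcases (Nat.Prime.dvd_mul hp).1 hj with h3 | h3
      · rcases (Nat.Prime.dvd_mul hp).1 (show p ∣ 9 * 11 from h3) with h4 | h4
        · have := Nat.le_of_dvd (by norm_num) h4
          omega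
        · have := Nat.le_of_dvd (by norm_num) h4
          omega
      · have := Nat.le_of_dvd (by norm_num) (hp.dvd_of_dvd_pow h3)
        omega
  · rw [← mul_sum, sum_add_distrib, sum_ite_eq', if_pos (mem_univ _), sum_const, card_univ,
      AddChar.card_eq, ZMod.card, nsmul_eq_mul]
    field_simp

end Pool.Agent.MP_760060_nt
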