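import Pool.Agent.MP_760060_nt.Cnt
import Pool.Agent.MP_760060_nt.Four

/-! The exceptional events and their frequencies. -/

namespace Pool.Agent.MP_760060_nt

open Finset

def Sq (D m : ℕ) : Prop := m ≠ 0 ∧ ∃ b, D < b ∧ b ^ 2 ∣ m

def Same (P : Finset ℕ) (m : ℕ) : Prop :=
  m ≠ 0 ∧ ∃ p ∈ P, ∃ q, q.Prime ∧ p ∣ m ∧ q ∣ m ∧ p ∣ q - 1

def Mid (a b m : ℕ) : Prop := m ≠ 0 ∧ ∃ q ∈ pr (10 ^ a) (10 ^ b), q ∣ m

def Jnt (k a b : ℕ) (P : Finset ℕ) (m : ℕ) : Prop :=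
  m ≠ 0 ∧ ∃ p ∈ P, p ∣ R k m ∧
    (p ∣ m ∨ ∃ q, q.Prime ∧ q ∣ m ∧ p ∣ q - 1 ∧ (q ≤ 10 ^ a ∨ 10 ^ b < q))

lemma pred_eq {p q : ℕ} (hq : q.Prime) (h : p ∣ q - 1) (hp : p.Prime) :
    ∃ j, 1 ≤ j ∧ j ≤ q ∧ q = p * j + 1 := by
  obtain ⟨j, hj⟩ := h
  have h2 := hq.two_le
  have h3 := Nat.le_mul_of_pos_left j hp.pos
  refine ⟨j, Nat.pos_of_ne_zero ?_, by omega, by omega⟩
  rintro rfl
  omega

lemma Hs_sq {k : ℕ} (hk : 1 ≤ k) {P : Finset ℕ} (hP : ∀ p ∈ P, 1 ≤ p ∧ p ≤ 10 ^ k) :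
    ∑ p ∈ P, ∑ j ∈ Icc (1 : ℕ) (10 ^ k), (1 : ℝ) / p * (1 / j) ≤ 16 * k ^ 2 := by
  rw [← sum_mul_sum]
  have h1 := Hs_harm hk
  have h2 : Hs P ≤ 4 * k := (Hs_mono fun p hp => mem_Icc.2 (hP p hp)).trans h1
  exact (mul_le_mul h2 h1 (Hs_nonneg _) (by positivity)).trans (le_of_eq (by ring))

lemma cnt_same {k W : ℕ} (hk : 1 ≤ k) (hW : 0 < W) {P : Finset ℕ}
    (hP : ∀ p ∈ P, p.Prime ∧ W < p ∧ p ≤ 10 ^ k) :
    cnt (10 ^ k) (Same P) ≤ 10 ^ k / W * (16 * k ^ 2) := by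
  refine (cnt_union (P ×ˢ Icc 1 (10 ^ k))
    (fun i m => m ≠ 0 ∧ i.1 * (i.1 * i.2 + 1) ∣ m) ?_).trans ?_
  · rintro m hm ⟨h0, p, hp, q, hq, h1, h2, h3⟩
    obtain ⟨j, j1, j2, rfl⟩ := pred_eq hq h3 (hP p hp).1
    have := Nat.le_of_dvd (Nat.pos_of_ne_zero h0) h2
    refine ⟨(p, j), mem_product.2 ⟨hp, mem_Icc.2 ⟨j1, by omega⟩⟩, h0, ?_⟩
    exact Nat.Coprime.mul_dvd_of_dvd_of_dvd (by simp) h1 h2
  refine le_trans ?_ (mul_le_mul_of_nonneg_left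
    (Hs_sq hk fun p hp => ⟨(hP p hp).1.pos, (hP p hp).2.2⟩) (by positivity))
  rw [← sum_product' (f := fun p j : ℕ => (1 : ℝ) / p * (1 / j)), mul_sum]
  refine sum_le_sum fun i hi => (cnt_dvd0 _ _).trans ?_
  obtain ⟨h1, h2⟩ := mem_product.1 hi
  have a1 : (0 : ℝ) < W := by exact_mod_cast hW
  have a2 : (W : ℝ) ≤ i.1 := by exact_mod_cast (hP _ h1).2.1.le
  have a3 : (0 : ℝ) < i.2 := by exact_mod_cast (mem_Icc.1 h2).1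
  have a4 : (0 : ℝ) < i.1 := a1.trans_le a2
  have e : (10 : ℝ) ^ k / W * (1 / i.1 * (1 / i.2)) = 10 ^ k / (W * (i.1 * i.2)) := by
    field_simp
  rw [e]
  push_cast
  gcongr
  linarith

lemma cnt_mid (X : ℕ) {a : ℕ} (ha : 1 ≤ a) (d : ℕ) :
    cnt X (Mid a (a + d)) ≤ X * (10 * d / a) := by
  refine (cnt_union (pr (10 ^ a) (10 ^ (a + d))) (fun q m => m ≠ 0 ∧ q ∣ m) ?_).trans ?_
  · rintro m _ ⟨h0, q, hq, h1⟩
    exact ⟨q, hq, h0, h1⟩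
  refine le_trans ?_ (mul_le_mul_of_nonneg_left (Hs_lin ha d) (Nat.cast_nonneg _))
  rw [Hs, mul_sum]
  exact sum_le_sum fun q _ => (cnt_dvd0 _ _).trans (le_of_eq (mul_one_div _ _).symm)

lemma jb {a g p l s u Q : ℕ} {θ : ℝ} (hp : p.Prime) (h11 : 11 < p) (hl : p ≤ 10 ^ l)
    (hg : s * (2 * l + 2) ≤ g) (h1 : 1 / (p : ℝ) ≤ θ) (h2 : kap ^ s ≤ θ) (hu : 1 ≤ u)
    (hQ : p * u ≤ Q) (t : ℕ) :
    cnt (10 ^ (a + (a + g))) (fun m => (Q ≤ 10 ^ a ∧ Q.Coprime 10) ∧ t ≡ m [MOD Q] ∧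
      p ∣ R (a + (a + g)) m) ≤ 4 * 10 ^ (a + (a + g)) * θ * (1 / p * (1 / u)) := by
  have hθ : 0 ≤ θ := le_trans (by positivity) h1
  by_cases hc : Q ≤ 10 ^ a ∧ Q.Coprime 10
  · have h0 : 0 < p * u := Nat.mul_pos hp.pos hu
    refine (cnt_mono fun m _ h => h.2).trans ?_
    rw [cnt_eq]
    refine (joint (h0.trans_le hQ) hc.1 hc.2 hp h11 hl hg t).trans ?_
    have a1 : (0 : ℝ) < p * u := by exact_mod_cast h0
    have a2 : (p : ℝ) * u ≤ Q := by exact_mod_cast hQ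
    have hk : 0 ≤ kap ^ s := pow_nonneg (by unfold kap; norm_num) s
    calc _ ≤ 2 * 10 ^ (a + (a + g)) / ((p : ℝ) * u) * (θ + θ) := by gcongr
      _ = _ := by ring
  · refine le_trans (le_of_eq (sum_eq_zero fun m _ => if_neg fun h => hc h.1)) (by positivity)

/-- Zero and the numbers `2 ^ i * 5 ^ j`. -/
def Cs (k : ℕ) : Finset ℕ :=
  insert 0 ((range (4 * k) ×ˢ range (4 * k)).image fun i => 2 ^ i.1 * 5 ^ i.2)

lemma card_Cs {k : ℕ} (hk : 1 ≤ k) : (Cs k).card ≤ 17 * k ^ 2 := by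
  refine (card_insert_le _ _).trans ((Nat.add_le_add_right card_image_le 1).trans ?_)
  rw [card_product, card_range]
  nlinarith

lemma ten_part {k s : ℕ} (h0 : s ≠ 0) (hs : s < 10 ^ k) :
    ∃ c ∈ Cs k, ∃ u, 1 ≤ u ∧ u.Coprime 10 ∧ s = c * u := by
  obtain ⟨i, s1, h1, e1⟩ := Nat.exists_eq_pow_mul_and_not_dvd h0 2 (by norm_num)
  have h0' : s1 ≠ 0 := by rintro rfl; simp at h1
  obtain ⟨j, u, h2, e2⟩ := Nat.exists_eq_pow_mul_and_not_dvd h0' 5 (by norm_num)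
  have e : s = 2 ^ i * 5 ^ j * u := by rw [e1, e2, mul_assoc]
  have hb : s < 2 ^ (4 * k) := by
    rw [pow_mul]
    exact hs.trans_le (Nat.pow_le_pow_left (by norm_num) k)
  have hi : 2 ^ i ≤ s := Nat.le_of_dvd (Nat.pos_of_ne_zero h0) ⟨s1, e1⟩
  have hj : 2 ^ j ≤ s := (Nat.pow_le_pow_left (show 2 ≤ 5 by norm_num) j).trans
    (Nat.le_of_dvd (Nat.pos_of_ne_zero h0) ⟨2 ^ i * u, by rw [e]; ring⟩)
  refine ⟨2 ^ i * 5 ^ j, mem_insert_of_mem (mem_image.2 ⟨(i, j), mem_product.2 ⟨mem_range.2 ?_,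
    mem_range.2 ?_⟩, rfl⟩), u, Nat.pos_of_ne_zero ?_, ?_, e⟩
  · exact (Nat.pow_lt_pow_iff_right (by norm_num)).1 (hi.trans_lt hb)
  · exact (Nat.pow_lt_pow_iff_right (by norm_num)).1 (hj.trans_lt hb)
  · rintro rfl
    simp at h2
  · refine Nat.Coprime.mul_right (m := 2) (n := 5) ?_ ?_
    · exact ((Nat.Prime.coprime_iff_not_dvd Nat.prime_two).2 fun h =>
        h1 (e2 ▸ h.mul_left _)).symm
    · exact ((Nat.Prime.coprime_iff_not_dvd Nat.prime_five).2 h2).symm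

lemma cop_ten {p : ℕ} (hp : p.Prime) (h : 5 < p) : p.Coprime 10 :=
  (Nat.Prime.coprime_iff_not_dvd hp).2 (not_dvd_ten hp (by omega) (by omega))

lemma cnt_jnt {a g l s W : ℕ} {θ : ℝ} (ha : 1 ≤ a) (hla : l ≤ a) (hW : 11 ≤ W) {P : Finset ℕ}
    (hP : ∀ p ∈ P, p.Prime ∧ W < p ∧ p ≤ 10 ^ l) (hg : s * (2 * l + 2) ≤ g)
    (h1 : 1 / (W : ℝ) ≤ θ) (h2 : kap ^ s ≤ θ) :
    cnt (10 ^ (a + (a + g))) (Jnt (a + (a + g)) a (a + (g + l)) P) ≤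
      10 ^ (a + (a + g)) * (2176 * (a + (a + g) : ℕ) ^ 4 * θ) := by
  set k := a + (a + g) with hk
  have hk1 : 1 ≤ k := by omega
  have hθ : 0 ≤ θ := le_trans (by positivity) h1
  have hpow : 10 ^ l ≤ 10 ^ a := Nat.pow_le_pow_right (by norm_num) hla
  refine (cnt_union ((P ×ˢ Icc 1 (10 ^ k)) ×ˢ (Cs k ×ˢ range 2))
    (fun i m => (i.1.1 * i.1.2 + i.2.2 ≤ 10 ^ a ∧ (i.1.1 * i.1.2 + i.2.2).Coprime 10) ∧
      i.2.1 * i.1.2 ≡ m [MOD i.1.1 * i.1.2 + i.2.2] ∧ i.1.1 ∣ R k m) ?_).trans ?_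
  · rintro m hm ⟨h0, p, hp, hR, h⟩
    obtain ⟨p1, p2, p3⟩ := hP p hp
    rcases h with h | ⟨q, hq, h3, h4, h5⟩
    · refine ⟨((p, 1), (0, 0)), by simp [hp, Cs, Nat.one_le_pow], ?_, ?_, hR⟩
      · simpa using ⟨p3.trans hpow, cop_ten p1 (by omega)⟩
      · simpa using (Nat.modEq_zero_iff_dvd.2 h).symm
    obtain ⟨j, j1, j2, e⟩ := pred_eq hq h4 p1
    have hqm := Nat.le_of_dvd (Nat.pos_of_ne_zero h0) h3
    have hpq := Nat.le_mul_of_pos_right p j1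
    rcases h5 with h5 | h5
    · refine ⟨((p, j), (0, 1)), ?_, ?_, ?_, hR⟩
      · simp only [mem_product, hp, mem_Icc, j1, Cs, mem_insert, true_or, mem_range, true_and]
        omega
      · simp only [← e]
        exact ⟨h5, cop_ten hq (by omega)⟩
      · simp only [← e, zero_mul]
        exact (Nat.modEq_zero_iff_dvd.2 h3).symm
    · obtain ⟨s', rfl⟩ := h3
      have hs0 : s' ≠ 0 := by rintro rfl; simp at h0
      have hs1 : s' ≤ q * s' := Nat.le_mul_of_pos_left _ hq.pos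
      obtain ⟨c, hc, u, u1, u2, e2⟩ := ten_part hs0 (hs1.trans_lt hm)
      have hu : u ≤ s' := Nat.le_of_dvd (Nat.pos_of_ne_zero hs0) ⟨c, by rw [e2, mul_comm]⟩
      have h6 : 10 ^ l * s' ≤ 10 ^ a := by
        have h7 : 10 ^ (a + g) * (10 ^ l * s') ≤ 10 ^ (a + g) * 10 ^ a := by
          calc 10 ^ (a + g) * (10 ^ l * s') = 10 ^ (a + (g + l)) * s' := by ring
            _ ≤ q * s' := Nat.mul_le_mul_right _ h5.le
            _ ≤ 10 ^ k := hm.le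
            _ = _ := by rw [hk]; ring
        exact Nat.le_of_mul_le_mul_left h7 (by positivity)
      refine ⟨((p, u), (c, 0)), ?_, ?_, ?_, hR⟩
      · simp only [mem_product, hp, mem_Icc, u1, hc, mem_range, true_and]
        omega
      · exact ⟨(Nat.mul_le_mul p3 hu).trans h6,
          Nat.Coprime.mul_left (cop_ten (p := p) p1 (by omega)) u2⟩
      · show c * u ≡ q * s' [MOD p * u]
        rw [e, e2, show (p * j + 1) * (c * u) = c * u + p * u * (j * c) by ring]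
        exact (Nat.modEq_iff_dvd' (Nat.le_add_right _ _)).2 (by simp)
  refine (sum_le_sum (g := fun i => 4 * 10 ^ k * θ * (1 / (i.1.1 : ℝ) * (1 / i.1.2)))
    fun i hi => ?_).trans ?_
  · obtain ⟨h3, h4⟩ := mem_product.1 (mem_product.1 hi).1
    obtain ⟨p1, p2, p3⟩ := hP _ h3
    refine jb p1 (by omega) p3 hg (le_trans ?_ h1) h2 (mem_Icc.1 h4).1 (Nat.le_add_right _ _) _
    exact one_div_le_one_div_of_le (by exact_mod_cast (by omega : 0 < W)) (by exact_mod_cast p2.le)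
  · rw [sum_product]
    simp only [sum_const, card_product, card_range, nsmul_eq_mul]
    rw [← mul_sum, ← mul_sum, sum_product' (f := fun p u : ℕ => (1 : ℝ) / p * (1 / u))]
    have b1 := Hs_sq hk1 (P := P) fun p hp => ⟨(hP p hp).1.pos, (hP p hp).2.2.trans
      (Nat.pow_le_pow_right (by norm_num) (by omega))⟩
    have b2 : ((Cs k).card : ℝ) ≤ 17 * k ^ 2 := by exact_mod_cast card_Cs hk1
    push_cast [-Nat.cast_add]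
    calc _ ≤ 17 * (k : ℝ) ^ 2 * 2 * (4 * 10 ^ k * θ * (16 * k ^ 2)) := by gcongr
      _ = _ := by ring

def Bad (k a b D Y : ℕ) (P : Finset ℕ) (t0 t1 : ℝ) (m : ℕ) : Prop :=
  m = 0 ∨ Sq D m ∨ t0 ≤ |(om (pr 0 Y) m : ℝ) - Hs (pr 0 Y)| ∨ t1 ≤ |(om P m : ℝ) - Hs P| ∨
    Same P m ∨ Mid a b m ∨ Jnt k a b P m

lemma flex_of {k a b D Y n r : ℕ} {P : Finset ℕ} {t0 t1 : ℝ} (hr : R k r = n)
    (hP : ∀ p ∈ P, p.Prime ∧ k < p ∧ 5 < p ∧ D < p ∧ ¬ p ^ 2 ∣ 10 ^ (p - 1) - 1 ∧ ¬ p ∣ 10 ^ k - 1)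
    (h1 : ¬ Bad k a b D Y P t0 t1 n) (h2 : ¬ Bad k a b D Y P t0 t1 r) :
    ∀ p ∈ P.filter (· ∣ n), Flex k n r p := by
  intro p hp
  obtain ⟨hp, hn⟩ := mem_filter.1 hp
  obtain ⟨p1, p2, p3, p4, p5, p6⟩ := hP p hp
  simp only [Bad, not_or] at h1 h2
  obtain ⟨a0, a1, -, -, a2, -, -⟩ := h1
  obtain ⟨b0, -, -, -, -, b1, b2⟩ := h2
  refine ⟨p1, p2, p3, p5, p6, hn, fun h => a1 ⟨a0, p, p4, h⟩,
    fun h => b2 ⟨b0, p, hp, hr ▸ hn, Or.inl h⟩, fun q hq h h' => ?_⟩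
  rcases (Nat.Prime.dvd_mul hq).1 h with h | h
  · exact a2 ⟨a0, p, hp, q, hq, hn, h, h'⟩
  · refine b2 ⟨b0, p, hp, hr ▸ hn, Or.inr ⟨q, hq, h, h', ?_⟩⟩
    by_contra hc
    push Not at hc
    exact b1 ⟨b0, q, mem_pr.2 ⟨hc, hq⟩, h⟩

lemma balance {k a b D Y n r : ℕ} {P : Finset ℕ} {t0 t1 : ℝ} (hr : r < Y ^ 3)
    (ht : 2 * t0 + 2 * D ^ 2 + 9 + t1 ≤ Hs P)
    (h1 : ¬ Bad k a b D Y P t0 t1 n) (h2 : ¬ Bad k a b D Y P t0 t1 r) :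
    Om r + 7 ≤ Om n + (P.filter (· ∣ n)).card := by
  simp only [Bad, not_or, not_le, abs_lt] at h1 h2
  obtain ⟨a0, -, a1, a2, -⟩ := h1
  obtain ⟨b0, b1, b2, -⟩ := h2
  have c1 : (om (pr 0 Y) n : ℝ) ≤ Om n := by
    exact_mod_cast om_le_Om (pr 0 Y) (fun _ => pr_prime) a0
  have c2 : (Om r : ℝ) ≤ om (pr 0 Y) r + 2 * (D * D) + 2 := by
    exact_mod_cast Om_le_om b0 hr fun b h3 h4 => b1 ⟨b0, b, h3, h4⟩
  have c3 : (Om r : ℝ) + 7 ≤ Om n + om P n := by nlinarith [a1.1, a2.1, b2.2]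
  exact_mod_cast c3

lemma cnt_T {k a b D Y : ℕ} {P : Finset ℕ} {t0 t1 : ℝ} (hY : 10 ^ (k + 1) ≤ Y ^ 3)
    (hP : ∀ p ∈ P, p.Prime ∧ k + 1 < p ∧ 5 < p ∧ D < p ∧ ¬ p ^ 2 ∣ 10 ^ (p - 1) - 1 ∧
      ¬ p ∣ 10 ^ (k + 1) - 1) (ht : 2 * t0 + 2 * D ^ 2 + 9 + t1 ≤ Hs P) :
    cnt (10 ^ (k + 1)) (fun n => 10 ^ k ≤ n ∧ n ∈ T) ≤
      2 * cnt (10 ^ (k + 1)) (Bad (k + 1) a b D Y P t0 t1) := by
  rw [two_mul]
  refine (cnt_mono (B := fun n => Bad (k + 1) a b D Y P t0 t1 n ∨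
    Bad (k + 1) a b D Y P t0 t1 (R (k + 1) n)) fun n hn h => ?_).trans
    ((cnt_or _ _ _).trans (le_of_eq (by rw [cnt_R])))
  by_contra hc
  rw [not_or] at hc
  exact not_mem_T h.1 hn _ _ (flex_of (R_R hn) hP hc.1 hc.2) (flex_of rfl hP hc.2 hc.1)
    (balance ((R_lt _ _).trans_le hY) ht hc.1 hc.2) (balance (hn.trans_le hY) ht hc.2 hc.1) h.2

end Pool.Agent.MP_760060_nt
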