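import Pool.Agent.MP_760060_nt.Det

/-! Counting lemmas: divisibility, the variance of the number of prime factors, sums of
reciprocals of primes. -/

namespace Pool.Agent.MP_760060_nt

open Finset

open Classical in
/-- The number of `m < X` with property `B`. -/
noncomputable def cnt (X : ℕ) (B : ℕ → Prop) : ℝ := ∑ m ∈ range X, if B m then 1 else 0

/-- The number of elements of `P` that divide `m`. -/
def om (P : Finset ℕ) (m : ℕ) : ℕ := (P.filter (· ∣ m)).card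

/-- The sum of the reciprocals. -/
noncomputable def Hs (P : Finset ℕ) : ℝ := ∑ p ∈ P, (1 : ℝ) / p

def pr (a b : ℕ) : Finset ℕ := (Ioc a b).filter Nat.Prime

lemma cnt_eq (X : ℕ) (B : ℕ → Prop) [DecidablePred B] :
    cnt X B = ((range X).filter B).card := by
  rw [card_filter, cnt]
  push_cast
  exact sum_congr rfl fun m _ => by congr

lemma cnt_nonneg (X : ℕ) (B : ℕ → Prop) : 0 ≤ cnt X B :=
  sum_nonneg fun _ _ => by positivity

lemma cnt_le (X : ℕ) (B : ℕ → Prop) : cnt X B ≤ X := by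
  classical
  rw [cnt_eq]
  exact_mod_cast (card_filter_le _ _).trans (card_range X).le

lemma cnt_union {ι : Type} {X : ℕ} {B : ℕ → Prop} (I : Finset ι) (E : ι → ℕ → Prop)
    (h : ∀ m < X, B m → ∃ i ∈ I, E i m) : cnt X B ≤ ∑ i ∈ I, cnt X (E i) := by
  unfold cnt
  rw [sum_comm]
  refine sum_le_sum fun m hm => ?_
  split_ifs with hB
  · obtain ⟨i, hi, hE⟩ := h m (mem_range.1 hm) hB
    refine le_trans ?_ (single_le_sum (fun _ _ => by positivity) hi)
    rw [if_pos hE]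
  · exact sum_nonneg fun _ _ => by positivity

lemma cnt_mono {X : ℕ} {A B : ℕ → Prop} (h : ∀ m < X, A m → B m) : cnt X A ≤ cnt X B := by
  refine sum_le_sum fun m hm => ?_
  by_cases hA : A m
  · rw [if_pos hA, if_pos (h m (mem_range.1 hm) hA)]
  · rw [if_neg hA]
    positivity

lemma cnt_or (X : ℕ) (A B : ℕ → Prop) : cnt X (fun m => A m ∨ B m) ≤ cnt X A + cnt X B := by
  unfold cnt
  rw [← sum_add_distrib]
  refine sum_le_sum fun m _ => ?_
  by_cases hA : A m <;> by_cases hB : B m <;> simp [hA, hB]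

lemma cnt_R (k : ℕ) (B : ℕ → Prop) : cnt (10 ^ k) (fun m => B (R k m)) = cnt (10 ^ k) B := by
  classical
  rw [cnt_eq, cnt_eq, card_R k B]

lemma cnt_dvd0 (X d : ℕ) : cnt X (fun m => m ≠ 0 ∧ d ∣ m) ≤ X / d := by
  rw [cnt_eq]
  refine le_trans ?_ Nat.cast_div_le
  rw [← Nat.Ioc_filter_dvd_card_eq_div]
  refine Nat.cast_le.2 (card_le_card fun m hm => ?_)
  simp only [mem_filter, mem_range, mem_Ioc] at hm ⊢
  exact ⟨⟨Nat.pos_of_ne_zero hm.2.1, hm.1.le⟩, hm.2.2⟩

lemma cnt_zero (X : ℕ) : cnt X (fun m => m = 0) ≤ 1 := by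
  rw [cnt_eq]
  have h : ((range X).filter fun m => m = 0).card ≤ 1 := card_le_one.2 fun a ha b hb => by
    rw [(mem_filter.1 ha).2, (mem_filter.1 hb).2]
  exact_mod_cast h

lemma cnt_dvd_le (X d : ℕ) : cnt X (fun m => d ∣ m) ≤ X / d + 1 := by
  refine (cnt_mono (B := fun m => (m ≠ 0 ∧ d ∣ m) ∨ m = 0) fun m _ h => ?_).trans
    ((cnt_or _ _ _).trans (add_le_add (cnt_dvd0 X d) (cnt_zero X)))
  by_cases h0 : m = 0
  · exact Or.inr h0
  · exact Or.inl ⟨h0, h⟩

lemma le_cnt_dvd (X : ℕ) {d : ℕ} (hd : 0 < d) : (X : ℝ) / d ≤ cnt X (fun m => d ∣ m) := by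
  rw [cnt_eq, div_le_iff₀ (by exact_mod_cast hd)]
  have h : (range X).card ≤ (((range X).filter fun m => d ∣ m) ×ˢ range d).card := by
    refine card_le_card_of_injOn (fun m => (d * (m / d), m % d)) (fun m hm => ?_)
      (fun m _ n _ h => ?_)
    · simp only [coe_product, coe_filter, mem_range, coe_range, Set.mem_prod, Set.mem_ofPred_eq,
        Set.mem_Iio] at hm ⊢
      exact ⟨⟨lt_of_le_of_lt (Nat.mul_div_le m d) hm, dvd_mul_right _ _⟩, Nat.mod_lt _ hd⟩
    · simp only [Prod.mk.injEq] at h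
      rw [← Nat.div_add_mod m d, ← Nat.div_add_mod n d, h.1, h.2]
  rw [card_product, card_range, card_range] at h
  exact_mod_cast h

lemma Hs_nonneg (P : Finset ℕ) : 0 ≤ Hs P := sum_nonneg fun _ _ => by positivity

lemma Hs_mono {P Q : Finset ℕ} (h : P ⊆ Q) : Hs P ≤ Hs Q :=
  sum_le_sum_of_subset_of_nonneg h fun _ _ _ => by positivity

lemma Hs_union (P Q : Finset ℕ) : Hs (P ∪ Q) ≤ Hs P + Hs Q := by
  have h := sum_union_inter (s₁ := P) (s₂ := Q) (f := fun p => (1 : ℝ) / p)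
  have h2 := Hs_nonneg (P ∩ Q)
  unfold Hs at *
  linarith

lemma om_cast (P : Finset ℕ) (m : ℕ) : (om P m : ℝ) = ∑ p ∈ P, if p ∣ m then 1 else 0 := by
  rw [om, card_filter]
  push_cast
  rfl

/-- The variance of the number of prime factors. -/
lemma variance (X : ℕ) (P : Finset ℕ) (hP : ∀ p ∈ P, p.Prime) :
    ∑ m ∈ range X, ((om P m : ℝ) - Hs P) ^ 2 ≤ X * Hs P + (P.card : ℝ) ^ 2 := by
  have h1 : X * Hs P ≤ ∑ m ∈ range X, (om P m : ℝ) := by
    simp_rw [om_cast]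
    rw [sum_comm, Hs, mul_sum]
    refine sum_le_sum fun p hp => ?_
    rw [mul_one_div]
    refine (le_cnt_dvd X (hP p hp).pos).trans (le_of_eq ?_)
    exact sum_congr rfl fun m _ => by congr
  have h2 : ∑ m ∈ range X, (om P m : ℝ) ^ 2 ≤ X * Hs P + X * Hs P ^ 2 + (P.card : ℝ) ^ 2 := by
    have e : X * Hs P + X * Hs P ^ 2 + (P.card : ℝ) ^ 2 = ∑ p ∈ P, ∑ q ∈ P,
        ((if p = q then (X : ℝ) / p else 0) + X * (1 / p * (1 / q)) + 1) := by
      simp only [sum_add_distrib, sum_const, nsmul_eq_mul, mul_one, ← mul_sum, ← sum_mul]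
      rw [sum_congr rfl fun p hp => (sum_ite_eq P p fun _ => (X : ℝ) / p).trans (if_pos hp), sq, sq,
        Hs, mul_sum]
      simp only [mul_one_div]
    simp_rw [om_cast, sq, sum_mul_sum]
    rw [← sq, ← sq, e, sum_comm]
    refine sum_le_sum fun p hp => ?_
    rw [sum_comm]
    refine sum_le_sum fun q hq => ?_
    have e2 : ∑ m ∈ range X, (if p ∣ m then (1 : ℝ) else 0) * (if q ∣ m then 1 else 0) =
        cnt X fun m => p ∣ m ∧ q ∣ m := sum_congr rfl fun m _ => by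
      by_cases a : p ∣ m <;> by_cases b : q ∣ m <;> simp [a, b]
    rw [e2]
    split_ifs with h
    · refine (cnt_mono fun m _ h => h.1).trans ((cnt_dvd_le X p).trans ?_)
      have : (0 : ℝ) ≤ X * (1 / p * (1 / q)) := by positivity
      linarith
    · refine (cnt_mono fun m _ hm => ((Nat.coprime_primes (hP p hp) (hP q hq)).2
        h).mul_dvd_of_dvd_of_dvd hm.1 hm.2).trans ((cnt_dvd_le X (p * q)).trans (le_of_eq ?_))
      push_cast
      ring
  have e : ∑ m ∈ range X, ((om P m : ℝ) - Hs P) ^ 2 = ∑ m ∈ range X, (om P m : ℝ) ^ 2 -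
      2 * Hs P * ∑ m ∈ range X, (om P m : ℝ) + X * Hs P ^ 2 := by
    simp only [sub_sq, sum_add_distrib, sum_sub_distrib, sum_const, card_range, nsmul_eq_mul,
      mul_sum]
    congr 2
    exact sum_congr rfl fun _ _ => by ring
  have h3 := mul_le_mul_of_nonneg_left h1 (Hs_nonneg P)
  rw [e]
  nlinarith

lemma cheb (X : ℕ) (P : Finset ℕ) (hP : ∀ p ∈ P, p.Prime) (hc : P.card ^ 2 ≤ X) {t : ℝ}
    (ht : 0 < t) : cnt X (fun m => t ≤ |(om P m : ℝ) - Hs P|) ≤ X * (Hs P + 1) / t ^ 2 := by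
  have hc' : (P.card : ℝ) ^ 2 ≤ X := by exact_mod_cast hc
  rw [le_div_iff₀ (by positivity), cnt, sum_mul]
  refine le_trans (sum_le_sum fun m _ => ?_) ((variance X P hP).trans (by linarith))
  split_ifs with h
  · rw [one_mul, ← sq_abs (_ - _)]
    exact pow_le_pow_left₀ ht.le h 2
  · rw [zero_mul]
    positivity

lemma cnt_sq (X : ℕ) {D : ℕ} (hD : D ≠ 0) :
    cnt X (fun m => m ≠ 0 ∧ ∃ b, D < b ∧ b ^ 2 ∣ m) ≤ X / D := by
  refine (cnt_union (Ioc D (D + X)) (fun b m => m ≠ 0 ∧ b ^ 2 ∣ m) ?_).trans ?_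
  · rintro m hm ⟨h0, b, h1, h2⟩
    have := Nat.le_of_dvd (Nat.pos_of_ne_zero h0) ((dvd_pow_self b two_ne_zero).trans h2)
    exact ⟨b, mem_Ioc.2 ⟨h1, by omega⟩, h0, h2⟩
  refine (sum_le_sum fun b _ => cnt_dvd0 X (b ^ 2)).trans ?_
  have h := sum_Ioc_inv_sq_le_sub (α := ℝ) hD (Nat.le_add_right D X)
  simp only [div_eq_mul_inv, ← mul_sum]
  push_cast at h ⊢
  refine mul_le_mul_of_nonneg_left (h.trans ?_) (Nat.cast_nonneg _)
  exact sub_le_self _ (by positivity)

lemma om_le_Om (P : Finset ℕ) (hP : ∀ p ∈ P, p.Prime) {m : ℕ} (hm : m ≠ 0) : om P m ≤ Om m := by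
  have h1 : om P m ≤ m.primeFactors.card := card_le_card fun p hp =>
    Nat.mem_primeFactors.2 ⟨hP p (mem_filter.1 hp).1, (mem_filter.1 hp).2, hm⟩
  refine h1.trans ?_
  rw [card_eq_sum_ones]
  exact sum_le_sum fun p hp => ((Nat.prime_of_mem_primeFactors hp).dvd_iff_one_le_factorization
    hm).1 (Nat.dvd_of_mem_primeFactors hp)

lemma Om_le_sq {b : ℕ} (hb : b ≠ 0) : Om b ≤ b * b := by
  refine (sum_le_card_nsmul _ _ b fun p _ => (Nat.factorization_lt p hb).le).trans ?_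
  refine Nat.mul_le_mul_right _ ((card_le_card (t := Ioc 0 b) fun p hp => ?_).trans (by simp))
  exact mem_Ioc.2 ⟨(Nat.prime_of_mem_primeFactors hp).pos, Nat.le_of_mem_primeFactors hp⟩

lemma Om_le_om {m Y D : ℕ} (hm : m ≠ 0) (hY : m < Y ^ 3) (hD : ∀ b, D < b → ¬ b ^ 2 ∣ m) :
    Om m ≤ om (pr 0 Y) m + 2 * (D * D) + 2 := by
  obtain ⟨a, b, hab, ha⟩ := Nat.sq_mul_squarefree m
  have hb : b ≠ 0 := by rintro rfl; simp at hab; exact hm hab.symm
  have hbD : b ≤ D := not_lt.1 fun h => hD b h ⟨a, hab.symm⟩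
  have h1 : Om m ≤ 2 * Om b + m.primeFactors.card := by
    rw [Om, Om, sum_ext hm ((dvd_pow_self b two_ne_zero).trans ⟨a, hab.symm⟩) hb (fun _ e => e)
      (fun _ => rfl), card_eq_sum_ones, mul_sum, ← sum_add_distrib]
    refine sum_le_sum fun p _ => ?_
    have := ha.natFactorization_le_one p
    rw [← hab, Nat.factorization_mul (pow_ne_zero 2 hb) ha.ne_zero, Nat.factorization_pow]
    simpa using this
  have h2 := (Om_le_sq hb).trans (Nat.mul_le_mul hbD hbD)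
  have h3 : (m.primeFactors.filter (Y < ·)).card ≤ 2 := by
    by_contra hc
    have h4 := pow_card_le_prod (m.primeFactors.filter (Y < ·)) (fun p => p) Y
      fun p hp => (mem_filter.1 hp).2.le
    have h5 := Nat.le_of_dvd (Nat.pos_of_ne_zero hm) ((prod_dvd_prod_of_subset _ _ (fun p => p)
      (filter_subset (Y < ·) _)).trans (Nat.prod_primeFactors_dvd m))
    have h6 : 0 < Y := Nat.pos_of_ne_zero (by rintro rfl; simp at hY)
    have h7 : Y ^ 3 ≤ _ := Nat.pow_le_pow_right h6 (not_le.1 hc)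
    omega
  have h4 : m.primeFactors.card ≤ om (pr 0 Y) m + (m.primeFactors.filter (Y < ·)).card := by
    refine le_trans (card_le_card fun p hp => ?_) (card_union_le _ _)
    have hp' := Nat.prime_of_mem_primeFactors hp
    simp only [mem_union, mem_filter, pr, mem_Ioc]
    rcases le_or_gt p Y with h | h
    · exact Or.inl ⟨⟨⟨hp'.pos, h⟩, hp'⟩, Nat.dvd_of_mem_primeFactors hp⟩
    · exact Or.inr ⟨hp, h⟩
  omega

lemma pr_prime {a b p : ℕ} (h : p ∈ pr a b) : p.Prime := (mem_filter.1 h).2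

lemma mem_pr {a b p : ℕ} : p ∈ pr a b ↔ (a < p ∧ p ≤ b) ∧ p.Prime := by
  rw [pr, mem_filter, mem_Ioc]

lemma card_pr (a b : ℕ) : (pr a b).card ≤ b :=
  (card_filter_le _ _).trans (by simp)

lemma Hs_split (a b c : ℕ) : Hs (pr a c) ≤ Hs (pr a b) + Hs (pr b c) := by
  refine (Hs_mono fun p hp => ?_).trans (Hs_union _ _)
  simp only [mem_union, mem_pr] at hp ⊢
  rcases le_or_gt p b with h | h
  · exact Or.inl ⟨⟨hp.1.1, h⟩, hp.2⟩
  · exact Or.inr ⟨⟨h, hp.1.2⟩, hp.2⟩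

lemma Hs_le_card {P : Finset ℕ} {W : ℕ} (hW : 0 < W) (h : ∀ p ∈ P, W ≤ p) :
    Hs P ≤ P.card / W := by
  refine (sum_le_card_nsmul _ _ (1 / (W : ℝ)) fun p hp => ?_).trans
    (le_of_eq (by rw [nsmul_eq_mul, mul_one_div]))
  exact one_div_le_one_div_of_le (by exact_mod_cast hW) (by exact_mod_cast h p hp)

lemma Hs_block {j : ℕ} (hj : 1 ≤ j) : Hs (pr (10 ^ j) (10 ^ (j + 1))) ≤ 10 * (1 / j) := by
  have h1 := pow_card_le_prod (pr (10 ^ j) (10 ^ (j + 1))) (fun p => p) (10 ^ j)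
    fun p hp => (mem_pr.1 hp).1.1.le
  have h2 : ∏ p ∈ pr (10 ^ j) (10 ^ (j + 1)), p ≤ primorial (10 ^ (j + 1)) :=
    prod_le_prod_of_subset_of_one_le' (fun p hp => mem_filter.2 ⟨mem_range.2
      (Nat.lt_succ_of_le (mem_pr.1 hp).1.2), pr_prime hp⟩) fun p hp _ => (mem_filter.1 hp).2.pos
  have h3 := (h1.trans (h2.trans (primorial_le_four_pow _))).trans
    (Nat.pow_le_pow_left (show 4 ≤ 10 by norm_num) _)
  rw [← pow_mul, Nat.pow_le_pow_iff_right (by norm_num)] at h3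
  have h4 : (j : ℝ) * (pr (10 ^ j) (10 ^ (j + 1))).card ≤ 10 ^ (j + 1) := by exact_mod_cast h3
  have hj' : (0 : ℝ) < j := by exact_mod_cast hj
  refine (Hs_le_card (W := 10 ^ j) (by positivity) fun p hp => (mem_pr.1 hp).1.1.le).trans ?_
  rw [mul_one_div, div_le_div_iff₀ (by positivity) hj']
  push_cast
  rw [pow_succ (10 : ℝ)] at h4
  linarith

lemma Hs_lin {a : ℕ} (ha : 1 ≤ a) (d : ℕ) : Hs (pr (10 ^ a) (10 ^ (a + d))) ≤ 10 * d / a := by
  induction d with
  | zero => simp [pr, Hs]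
  | succ d ih =>
    have ha' : (0 : ℝ) < a := by exact_mod_cast ha
    have h1 := Hs_block (j := a + d) (by omega)
    have h2 : 1 / ((a + d : ℕ) : ℝ) ≤ 1 / a :=
      one_div_le_one_div_of_le ha' (by exact_mod_cast Nat.le_add_right a d)
    refine (Hs_split _ (10 ^ (a + d)) _).trans ((add_le_add ih h1).trans ?_)
    have e : (10 : ℝ) * (d + 1 : ℕ) / a = 10 * d / a + 10 * (1 / a) := by
      push_cast
      ring
    linarith

lemma Hs_log {a b : ℕ} (ha : 1 ≤ a) (hab : a ≤ b) :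
    Hs (pr (10 ^ a) (10 ^ b)) ≤ 10 * (1 + Real.log (b / a)) := by
  have ha' : (1 : ℝ) ≤ a := by exact_mod_cast ha
  have key : Hs (pr (10 ^ a) (10 ^ b)) ≤ 10 * (1 / a - 1 / b + Real.log b - Real.log a) := by
    induction b, hab using Nat.le_induction with
    | base => simp [pr, Hs]
    | succ b hab ih =>
      have hb : (0 : ℝ) < b := by exact_mod_cast (by omega : 0 < b)
      have h1 := Hs_block (j := b) (by omega)
      have h2 := Real.one_sub_inv_le_log_of_pos (x := (b + 1) / b) (by positivity)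
      rw [Real.log_div (by positivity) hb.ne', inv_div] at h2
      have e : 1 - (b : ℝ) / (b + 1) = 1 / (b + 1) := by field_simp; ring
      refine (Hs_split _ (10 ^ b) _).trans ((add_le_add ih h1).trans ?_)
      push_cast
      linarith
  have hb : (0 : ℝ) < b := by exact_mod_cast (by omega : 0 < b)
  have h1 : 1 / (a : ℝ) ≤ 1 := (div_le_one (by linarith)).2 ha'
  have h2 : 0 ≤ 1 / (b : ℝ) := by positivity
  rw [Real.log_div hb.ne' (by linarith)]
  linarith

lemma Hs_all {b : ℕ} (hb : 1 ≤ b) : Hs (pr 0 (10 ^ b)) ≤ 20 + 10 * Real.log b := by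
  have h1 := Hs_log le_rfl hb
  have h2 := Hs_le_card (P := pr 0 (10 ^ 1)) (W := 1) one_pos fun p hp => (pr_prime hp).pos
  have h3 : ((pr 0 (10 ^ 1)).card : ℝ) ≤ 10 := by exact_mod_cast card_pr 0 (10 ^ 1)
  have h4 := Hs_split 0 (10 ^ 1) (10 ^ b)
  simp only [Nat.cast_one, div_one] at h1 h2
  linarith

lemma Hs_harm {k : ℕ} (hk : 1 ≤ k) : Hs (Icc 1 (10 ^ k)) ≤ 4 * k := by
  have h1 := harmonic_le_one_add_log (10 ^ k)
  rw [harmonic_eq_sum_Icc] at h1
  push_cast at h1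
  rw [Real.log_pow] at h1
  have h2 : Real.log 10 ≤ 3 := by
    rw [Real.log_le_iff_le_exp (by norm_num)]
    have h3 := Real.exp_one_gt_d9
    have h4 : Real.exp 3 = Real.exp 1 ^ 3 := by rw [← Real.exp_nat_mul]; norm_num
    rw [h4]
    exact le_trans (by norm_num) (pow_le_pow_left₀ (by norm_num) h3.le 3)
  have hk' : (1 : ℝ) ≤ k := by exact_mod_cast hk
  simp only [Hs, one_div]
  nlinarith

end Pool.Agent.MP_760060_nt
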