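import Mathlib

/-! Definitions used in the statement. -/

namespace Pool.Agent.MP_760060_nt

/-- The number whose decimal digits are those of `n` in reverse order. -/
def rev (n : ℕ) : ℕ := Nat.ofDigits 10 (Nat.digits 10 n).reverse

/-- The sum of the primes and of the exponents larger than one in the factorisation of `n`. -/
def vv (n : ℕ) : ℕ :=
  ∑ p ∈ n.primeFactors, (p + if n.factorization p = 1 then 0 else n.factorization p)

/-- `n` is v-palindromic. -/
def VPal (n : ℕ) : Prop := ¬ 10 ∣ n ∧ n ≠ rev n ∧ vv n = vv (rev n)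

/-- The multiplier that writes a string of `k` digits `c` times in a row. -/
def rho (c k : ℕ) : ℕ := ∑ i ∈ Finset.range c, 10 ^ (k * i)

def S : Set ℕ := {n | ¬ 10 ∣ n ∧ n < rev n}

/-- The elements of `S` no repetition of which is v-palindromic. -/
def T : Set ℕ := {n | n ∈ S ∧ ∀ c, 1 ≤ c → ¬ VPal (n * rho c (Nat.digits 10 n).length)}

/-- The sum of the reciprocals of the primes up to `x` that are not Wieferich primes to base ten. -/
noncomputable def NW (x : ℕ) : ℝ :=
  ∑ p ∈ (Finset.Icc 1 x).filter (fun p => p.Prime ∧ ¬ p ^ 2 ∣ 10 ^ (p - 1) - 1), (1 : ℝ) / p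

end Pool.Agent.MP_760060_nt
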