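import Pool.Agent.MP_760060_nt.Dig

/-! The deterministic step: enough flexible primes give a v-palindromic repetition. -/

namespace Pool.Agent.MP_760060_nt

open Finset

def phi (p e : ℕ) : ℕ := if e = 0 then 0 else p + if e = 1 then 0 else e

def gw (p e : ℕ) : ℕ := if p = 2 ∨ p = 5 then phi p e else e

/-- The number of prime factors with multiplicity. -/
def Om (n : ℕ) : ℕ := ∑ p ∈ n.primeFactors, n.factorization p

def ww (n : ℕ) : ℕ := ∑ p ∈ n.primeFactors, gw p (n.factorization p)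

/-- A prime whose contribution can be chosen to be one or two. -/
structure Flex (k n r p : ℕ) : Prop where
  pr : p.Prime
  big : k < p
  five : 5 < p
  nw : ¬ p ^ 2 ∣ 10 ^ (p - 1) - 1
  nk : ¬ p ∣ 10 ^ k - 1
  dn : p ∣ n
  sq : ¬ p ^ 2 ∣ n
  nr : ¬ p ∣ r
  nq : ∀ q, q.Prime → q ∣ n * r → ¬ p ∣ q - 1

lemma sum_ext {N t : ℕ} (ht : t ≠ 0) (h : N ∣ t) (hN : N ≠ 0) (f : ℕ → ℕ → ℕ) (hf : ∀ p, f p 0 = 0) :
    ∑ p ∈ N.primeFactors, f p (N.factorization p) =
      ∑ p ∈ t.primeFactors, f p (N.factorization p) := by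
  refine sum_subset (Nat.primeFactors_mono h ht) fun p hp hp' => ?_
  rw [← Nat.support_factorization, Finsupp.notMem_support_iff] at hp'
  have _ := hN
  rw [hp', hf]

lemma vv_eq (N : ℕ) : vv N = ∑ p ∈ N.primeFactors, phi p (N.factorization p) := by
  refine sum_congr rfl fun p hp => ?_
  rw [← Nat.support_factorization, Finsupp.mem_support_iff] at hp
  rw [phi, if_neg hp]

lemma Om_le_ww (n : ℕ) : Om n ≤ ww n := by
  refine sum_le_sum fun p hp => ?_
  have := (Nat.prime_of_mem_primeFactors hp).two_le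
  unfold gw phi
  split_ifs <;> omega

lemma ww_le (n : ℕ) : ww n ≤ Om n + 7 := by
  have h1 : ww n ≤ ∑ p ∈ n.primeFactors,
      (n.factorization p + ((if p = 2 then 2 else 0) + if p = 5 then 5 else 0)) := by
    refine sum_le_sum fun p _ => ?_
    unfold gw phi
    split_ifs <;> omega
  rw [sum_add_distrib, sum_add_distrib, sum_ite_eq', sum_ite_eq'] at h1
  unfold Om
  split_ifs at h1 <;> omega

lemma not_dvd_ten {p : ℕ} (hp : p.Prime) (h2 : p ≠ 2) (h5 : p ≠ 5) : ¬ p ∣ 10 := fun h => by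
  rcases (Nat.Prime.dvd_mul hp).1 (show p ∣ 2 * 5 from h) with h | h
  · exact h2 ((Nat.prime_dvd_prime_iff_eq hp Nat.prime_two).1 h)
  · exact h5 ((Nat.prime_dvd_prime_iff_eq hp Nat.prime_five).1 h)

lemma fermat {p : ℕ} (hp : p.Prime) (h : ¬ p ∣ 10) : p ∣ 10 ^ (p - 1) - 1 :=
  (Nat.modEq_iff_dvd' (Nat.one_le_pow _ _ (by norm_num))).1
    (Nat.ModEq.pow_card_sub_one_eq_one hp ((Nat.Prime.coprime_iff_not_dvd hp).2 h).symm).symm

lemma lte {p a m : ℕ} (hp : p.Prime) (h2 : p ≠ 2) (h : ¬ p ∣ 10) (ha : a ≠ 0) (hm : m ≠ 0)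
    (hd : p ∣ 10 ^ a - 1) : (10 ^ (a * m) - 1).factorization p =
      (10 ^ a - 1).factorization p + m.factorization p := by
  have := Fact.mk hp
  have h1 := padicValNat.pow_sub_pow (hp.odd_of_ne_two h2) (x := 10 ^ a) (y := 1)
    (Nat.one_lt_pow ha (by norm_num)) hd (fun hc => h (hp.dvd_of_dvd_pow hc)) hm
  rw [one_pow, ← pow_mul] at h1
  simp only [Nat.factorization_def _ hp, h1]

lemma ten_ne {a : ℕ} (ha : a ≠ 0) : 10 ^ a - 1 ≠ 0 :=
  Nat.sub_ne_zero_of_lt (Nat.one_lt_pow ha (by norm_num))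

lemma rho_ne {c k : ℕ} (hc : 1 ≤ c) (hk : 1 ≤ k) : rho c k ≠ 0 := by
  obtain ⟨t, ht⟩ := rho_mod hc hk
  omega

lemma rho_fac {c k : ℕ} (hc : 1 ≤ c) (hk : 1 ≤ k) (p : ℕ) :
    (rho c k).factorization p + (10 ^ k - 1).factorization p =
      (10 ^ (k * c) - 1).factorization p := by
  rw [pow_mul, ← rho_mul, Nat.factorization_mul (rho_ne hc hk) (ten_ne (by omega))]
  rfl

lemma rho_two {c k q : ℕ} (hc : 1 ≤ c) (hk : 1 ≤ k) (hq : q.Prime) (h2 : q ≠ 2) (h5 : q ≠ 5)
    (hd : (q - 1) * q ^ 2 ∣ c) : 2 ≤ (rho c k).factorization q := by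
  obtain ⟨m, rfl⟩ := hd
  have hm : m ≠ 0 := by rintro rfl; simp at hc
  have h10 := not_dvd_ten hq h2 h5
  have hq1 : q - 1 ≠ 0 := by have := hq.two_le; omega
  have ha : k * ((q - 1) * m) ≠ 0 := by positivity
  have h1 := rho_fac hc hk q
  have e : k * ((q - 1) * q ^ 2 * m) = k * ((q - 1) * m) * q ^ 2 := by ring
  have hd : q ∣ 10 ^ (k * ((q - 1) * m)) - 1 := by
    refine (fermat hq h10).trans ?_
    rw [show k * ((q - 1) * m) = (q - 1) * (k * m) by ring, pow_mul]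
    exact Nat.sub_one_dvd_pow_sub_one _ _
  rw [e, lte hq h2 h10 ha (pow_ne_zero 2 hq.ne_zero) hd, hq.factorization_pow,
    Finsupp.single_eq_same] at h1
  have h3 : (10 ^ k - 1).factorization q ≤ (10 ^ (k * ((q - 1) * m)) - 1).factorization q := by
    refine (Nat.factorization_le_iff_dvd (ten_ne (by omega)) (ten_ne ha)).2 ?_ q
    rw [pow_mul]
    exact Nat.sub_one_dvd_pow_sub_one _ _
  omega

lemma fac_one {p N : ℕ} (hp : p.Prime) (h1 : p ∣ N) (h2 : ¬ p ^ 2 ∣ N) : N.factorization p = 1 := by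
  have hN : N ≠ 0 := by rintro rfl; exact h2 (dvd_zero _)
  rw [hp.dvd_iff_one_le_factorization hN] at h1
  rw [hp.pow_dvd_iff_le_factorization hN] at h2
  omega

lemma rho_one {c k n r p : ℕ} (hc : 1 ≤ c) (hk : 1 ≤ k) (h : Flex k n r p) (hd : p - 1 ∣ c)
    (hn : ¬ p ∣ c) : (rho c k).factorization p = 1 := by
  obtain ⟨m, rfl⟩ := hd
  have hm : m ≠ 0 := by rintro rfl; simp at hc
  have h5 := h.five
  have h10 := not_dvd_ten h.pr (by omega) (by omega)
  have h1 := rho_fac hc hk p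
  have e : k * ((p - 1) * m) = (p - 1) * (k * m) := by ring
  have h3 : ¬ p ∣ k * m := fun hc => by
    rcases (Nat.Prime.dvd_mul h.pr).1 hc with h4 | h4
    · exact Nat.not_dvd_of_pos_of_lt hk h.big h4
    · exact hn (h4.mul_left _)
  rw [e, lte h.pr (by omega) h10 (by omega) (by positivity) (fermat h.pr h10),
    fac_one h.pr (fermat h.pr h10) h.nw, Nat.factorization_eq_zero_of_not_dvd h3,
    Nat.factorization_eq_zero_of_not_dvd h.nk] at h1
  omega

lemma det0 {k n r : ℕ} (hk : 1 ≤ k) (hn : n ≠ 0) (hr : r ≠ 0) (F : Finset ℕ)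
    (hF : ∀ p ∈ F, Flex k n r p) (hc : ww n + F.card = ww r) :
    ∃ c, 1 ≤ c ∧ vv (n * rho c k) = vv (r * rho c k) := by
  set s := (n * r).primeFactors with hs
  set c := (∏ q ∈ s, (q - 1)) * ∏ q ∈ s \ F, q ^ 2 with hcdef
  have hnr : n * r ≠ 0 := mul_ne_zero hn hr
  have c1 : 1 ≤ c := by
    refine Nat.pos_of_ne_zero (mul_ne_zero (prod_ne_zero_iff.2 fun q hq => ?_)
      (prod_ne_zero_iff.2 fun q hq => ?_))
    · have := (Nat.prime_of_mem_primeFactors hq).two_le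
      omega
    · exact pow_ne_zero 2 (Nat.prime_of_mem_primeFactors (mem_sdiff.1 hq).1).ne_zero
  have hρ := rho_ne c1 hk
  have hFs : F ⊆ s := fun p hp =>
    Nat.mem_primeFactors.2 ⟨(hF p hp).pr, (hF p hp).dn.mul_right _, hnr⟩
  refine ⟨c, c1, ?_⟩
  have ht : n * r * rho c k ≠ 0 := mul_ne_zero hnr hρ
  have z1 : ∀ p, phi p 0 = 0 := fun p => by simp [phi]
  have z2 : ∀ p, gw p 0 = 0 := fun p => by simp [gw, phi]
  have hst : s ⊆ (n * r * rho c k).primeFactors := Nat.primeFactors_mono (dvd_mul_right _ _) ht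
  have e5 : F.card = ∑ p ∈ (n * r * rho c k).primeFactors, if p ∈ F then 1 else 0 := by
    rw [← card_filter, filter_mem_eq_inter, inter_eq_right.2 (hFs.trans hst)]
  rw [ww, ww, sum_ext ht (Dvd.intro (r * rho c k) (by ring)) hn gw z2,
    sum_ext ht (Dvd.intro (n * rho c k) (by ring)) hr gw z2, e5, ← sum_add_distrib] at hc
  rw [vv_eq, vv_eq, sum_ext ht (Dvd.intro r (by ring)) (mul_ne_zero hn hρ) phi z1,
    sum_ext ht (Dvd.intro n (by ring)) (mul_ne_zero hr hρ) phi z1]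
  refine Nat.add_right_cancel (m := ∑ p ∈ (n * r * rho c k).primeFactors,
    gw p (r.factorization p)) ?_
  rw [← sum_add_distrib, ← hc, ← sum_add_distrib]
  refine sum_congr rfl fun p hp => ?_
  have hp' := Nat.prime_of_mem_primeFactors hp
  rw [Nat.factorization_mul hn hρ, Nat.factorization_mul hr hρ, Finsupp.add_apply,
    Finsupp.add_apply]
  by_cases h25 : p = 2 ∨ p = 5
  · have h1 : p ∉ F := fun h => by have := (hF p h).five; omega
    have h2 : (rho c k).factorization p = 0 := by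
      refine Nat.factorization_eq_zero_of_not_dvd ?_
      obtain ⟨t, ht⟩ := rho_mod c1 hk
      rcases h25 with rfl | rfl <;> omega
    simp only [gw, if_pos h25, if_neg h1, h2, add_zero]
    omega
  simp only [gw, if_neg h25]
  by_cases h1 : p ∈ F
  · have h := hF p h1
    have h2 : (rho c k).factorization p = 1 := by
      refine rho_one c1 hk h ((dvd_prod_of_mem _ (hFs h1)).mul_right _) fun hd => ?_
      rcases (Nat.Prime.dvd_mul hp').1 hd with hd | hd
      · obtain ⟨q, hq, hd⟩ := (hp'.prime.dvd_finsetProd_iff _).1 hd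
        exact h.nq q (Nat.prime_of_mem_primeFactors hq) (Nat.dvd_of_mem_primeFactors hq) hd
      · obtain ⟨q, hq, hd⟩ := (hp'.prime.dvd_finsetProd_iff _).1 hd
        have := (Nat.prime_dvd_prime_iff_eq hp'
          (Nat.prime_of_mem_primeFactors (mem_sdiff.1 hq).1)).1 (hp'.dvd_of_dvd_pow hd)
        exact (mem_sdiff.1 hq).2 (this ▸ h1)
    rw [h2, fac_one hp' h.dn h.sq, Nat.factorization_eq_zero_of_not_dvd h.nr, if_pos h1]
    simp [phi]
  rw [if_neg h1]
  by_cases h3 : p ∈ s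
  · have h2 : 2 ≤ (rho c k).factorization p :=
      rho_two c1 hk hp' (fun h => h25 (Or.inl h)) (fun h => h25 (Or.inr h))
        (mul_dvd_mul (dvd_prod_of_mem _ h3) (dvd_prod_of_mem (fun q => q ^ 2)
          (mem_sdiff.2 ⟨h3, h1⟩)))
    unfold phi
    split_ifs <;> omega
  · have h4 : ¬ p ∣ n * r := fun h => h3 (Nat.mem_primeFactors.2 ⟨hp', h, hnr⟩)
    rw [Nat.factorization_eq_zero_of_not_dvd fun h => h4 (h.mul_right _),
      Nat.factorization_eq_zero_of_not_dvd fun h => h4 (h.mul_left _)]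

/-- If both numbers have many flexible primes, some repetition balances. -/
lemma det {k n r : ℕ} (hk : 1 ≤ k) (hn : n ≠ 0) (hr : r ≠ 0) (F G : Finset ℕ)
    (hF : ∀ p ∈ F, Flex k n r p) (hG : ∀ p ∈ G, Flex k r n p)
    (h1 : Om r + 7 ≤ Om n + F.card) (h2 : Om n + 7 ≤ Om r + G.card) :
    ∃ c, 1 ≤ c ∧ vv (n * rho c k) = vv (r * rho c k) := by
  have a1 := Om_le_ww n
  have a2 := Om_le_ww r
  have a3 := ww_le n
  have a4 := ww_le r
  rcases le_total (ww n) (ww r) with h | h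
  · obtain ⟨F', h3, h4⟩ := exists_subset_card_eq (s := F) (n := ww r - ww n) (by omega)
    exact det0 hk hn hr F' (fun p hp => hF p (h3 hp)) (by omega)
  · obtain ⟨G', h3, h4⟩ := exists_subset_card_eq (s := G) (n := ww n - ww r) (by omega)
    obtain ⟨c, h5, h6⟩ := det0 hk hr hn G' (fun p hp => hG p (h3 hp)) (by omega)
    exact ⟨c, h5, h6.symm⟩

/-- The same for a number with `k + 1` digits and its reversal. -/
lemma not_mem_T {k n : ℕ} (h1 : 10 ^ k ≤ n) (h2 : n < 10 ^ (k + 1)) (F G : Finset ℕ)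
    (hF : ∀ p ∈ F, Flex (k + 1) n (R (k + 1) n) p) (hG : ∀ p ∈ G, Flex (k + 1) (R (k + 1) n) n p)
    (h3 : Om (R (k + 1) n) + 7 ≤ Om n + F.card) (h4 : Om n + 7 ≤ Om (R (k + 1) n) + G.card) :
    n ∉ T := by
  rintro ⟨⟨s1, s2⟩, hT⟩
  have hn : n ≠ 0 := by rintro rfl; exact s1 (dvd_zero _)
  rw [← rev_eq h1 h2] at hF hG h3 h4
  obtain ⟨c, c1, hc⟩ := det (by omega) hn (by omega) F G hF hG h3 h4
  rw [len_eq h1 h2] at hT
  refine hT c c1 ⟨fun hd => s1 ?_, ?_, ?_⟩
  · obtain ⟨t, ht⟩ := rho_mod c1 (show 1 ≤ k + 1 by omega)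
    rw [ht, mul_add, mul_one, mul_left_comm] at hd
    omega
  · rw [rev_rep h1 h2 c1]
    exact fun h => s2.ne (Nat.eq_of_mul_eq_mul_right
      (Nat.pos_of_ne_zero (rho_ne c1 (by omega))) h)
  · rw [rev_rep h1 h2 c1, hc]

end Pool.Agent.MP_760060_nt
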