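import Pool.Agent.MP_760060_nt.Defs

/-! Reversal of digit strings of a fixed length. -/

namespace Pool.Agent.MP_760060_nt

/-- Reversal of the last `k` digits. -/
def R : ℕ → ℕ → ℕ
  | 0, _ => 0
  | k + 1, m => m % 10 * 10 ^ k + R k (m / 10)

lemma R_lt (k m : ℕ) : R k m < 10 ^ k := by
  induction k generalizing m with
  | zero => simp [R]
  | succ k ih =>
    have h1 := ih (m / 10)
    have h2 : m % 10 * 10 ^ k ≤ 9 * 10 ^ k := Nat.mul_le_mul_right _ (by omega)
    rw [R, pow_succ]
    omega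

lemma R_add (a b y : ℕ) {x : ℕ} (hx : x < 10 ^ a) :
    R (a + b) (x + 10 ^ a * y) = R b y + 10 ^ b * R a x := by
  induction a generalizing x with
  | zero =>
    have : x = 0 := by simpa using hx
    simp [this, R]
  | succ a ih =>
    have e1 : x + 10 ^ (a + 1) * y = x + 10 * (10 ^ a * y) := by ring
    have h1 : x / 10 < 10 ^ a := by
      rw [pow_succ] at hx
      omega
    rw [Nat.add_right_comm, R, e1, Nat.add_mul_mod_self_left,
      Nat.add_mul_div_left _ _ (by norm_num), ih h1, R]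
    ring

lemma R_one {d : ℕ} (hd : d < 10) : R 1 d = d := by
  simp [R, Nat.mod_eq_of_lt hd]

lemma R_R {k m : ℕ} (h : m < 10 ^ k) : R k (R k m) = m := by
  induction k generalizing m with
  | zero =>
    have : m = 0 := by simpa using h
    simp [R, this]
  | succ k ih =>
    have h1 : m / 10 < 10 ^ k := by
      rw [pow_succ] at h
      omega
    have e : R (k + 1) m = R k (m / 10) + 10 ^ k * (m % 10) := by
      rw [R]
      ring
    rw [e, R_add k 1 _ (R_lt _ _), ih h1, R_one (Nat.mod_lt _ (by norm_num))]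
    omega

lemma rev_eq_len (n : ℕ) : rev n = R (Nat.digits 10 n).length n := by
  induction n using Nat.strong_induction_on with
  | _ n ih =>
    rcases Nat.eq_zero_or_pos n with rfl | hn
    · simp [rev, R]
    · have := ih (n / 10) (by omega)
      unfold rev at this ⊢
      rw [Nat.digits_def' (by norm_num) hn, List.reverse_cons, Nat.ofDigits_append, this,
        List.length_cons, R]
      simp only [List.length_reverse, Nat.ofDigits_singleton]
      ring

lemma len_eq {k n : ℕ} (h1 : 10 ^ k ≤ n) (h2 : n < 10 ^ (k + 1)) :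
    (Nat.digits 10 n).length = k + 1 :=
  le_antisymm ((Nat.digits_length_le_iff (by norm_num) n).2 h2)
    ((Nat.lt_digits_length_iff (by norm_num) n).2 h1)

lemma rev_eq {k n : ℕ} (h1 : 10 ^ k ≤ n) (h2 : n < 10 ^ (k + 1)) : rev n = R (k + 1) n := by
  rw [rev_eq_len, len_eq h1 h2]

lemma rho_succ (c k : ℕ) : rho (c + 1) k = rho c k + 10 ^ (k * c) := Finset.sum_range_succ _ _

lemma rho_succ' (c k : ℕ) : rho (c + 1) k = 1 + 10 ^ k * rho c k := by
  unfold rho
  rw [Finset.sum_range_succ', Finset.mul_sum, add_comm]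
  simp [mul_add, pow_add, mul_comm]

lemma rep {k n : ℕ} (hn : n < 10 ^ k) (c : ℕ) :
    n * rho c k < 10 ^ (k * c) ∧ R (k * c) (n * rho c k) = R k n * rho c k := by
  induction c with
  | zero => simp [rho, R]
  | succ c ih =>
    have e : n * rho (c + 1) k = n + 10 ^ k * (n * rho c k) := by
      rw [rho_succ']
      ring
    have e2 : k * (c + 1) = k + k * c := by ring
    rw [e, e2, R_add _ _ _ hn, ih.2, rho_succ, pow_add]
    refine ⟨?_, by ring⟩
    calc n + 10 ^ k * (n * rho c k) < 10 ^ k * (n * rho c k + 1) := by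
          rw [mul_add]
          omega
      _ ≤ _ := Nat.mul_le_mul_left _ ih.1

lemma rev_rep {k n : ℕ} (h1 : 10 ^ k ≤ n) (h2 : n < 10 ^ (k + 1)) {c : ℕ} (hc : 1 ≤ c) :
    rev (n * rho c (k + 1)) = rev n * rho c (k + 1) := by
  obtain ⟨c, rfl⟩ := Nat.exists_eq_add_of_le' hc
  have h := rep h2 (c + 1)
  have e : (k + 1) * (c + 1) = (k + (k + 1) * c) + 1 := by ring
  rw [rev_eq h1 h2, ← h.2, e]
  refine rev_eq ?_ (e ▸ h.1)
  rw [rho_succ, pow_add]
  exact Nat.mul_le_mul h1 (Nat.le_add_left _ _)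

lemma rho_mod {c k : ℕ} (hc : 1 ≤ c) (hk : 1 ≤ k) : ∃ t, rho c k = 1 + 10 * t := by
  obtain ⟨c, rfl⟩ := Nat.exists_eq_add_of_le' hc
  obtain ⟨k, rfl⟩ := Nat.exists_eq_add_of_le' hk
  exact ⟨10 ^ k * rho c (k + 1), by rw [rho_succ']; ring⟩

lemma rho_mul (c k : ℕ) : rho c k * (10 ^ k - 1) = (10 ^ k) ^ c - 1 := by
  have h := geom_sum_mul_add (10 ^ k - 1) c
  rw [Nat.sub_add_cancel (Nat.one_le_pow _ _ (by norm_num))] at h
  rw [← h, Nat.add_sub_cancel]
  simp only [rho, pow_mul]

/-- Splitting a sum over a range into a low and a high block. -/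
lemma sum_block {M : Type} [AddCommMonoid M] (f : ℕ → M) (A B : ℕ) :
    ∑ m ∈ Finset.range (A * B), f m = ∑ y ∈ Finset.range B, ∑ x ∈ Finset.range A, f (x + A * y) := by
  induction B with
  | zero => simp
  | succ B ih =>
    rw [Nat.mul_succ, Finset.sum_range_add, ih, Finset.sum_range_succ]
    simp only [add_comm]

/-- Reversal permutes the strings of length `k`. -/
lemma card_R (k : ℕ) (P : ℕ → Prop) [DecidablePred P] :
    ((Finset.range (10 ^ k)).filter fun m => P (R k m)).card =
      ((Finset.range (10 ^ k)).filter P).card := by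
  refine Finset.card_nbij' (R k) (R k) (fun m hm => ?_) (fun m hm => ?_) (fun m hm => ?_)
    (fun m hm => ?_)
  all_goals simp only [Finset.coe_filter, Finset.mem_range, Set.mem_ofPred_eq] at hm ⊢
  · exact ⟨R_lt _ _, hm.2⟩
  · exact ⟨R_lt _ _, by rw [R_R hm.1]; exact hm.2⟩
  · exact R_R hm.1
  · exact R_R hm.1

end Pool.Agent.MP_760060_nt
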