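import Pool.Agent.MP_760060_nt.Bad

/-! The numbers with a given number of digits. -/

namespace Pool.Agent.MP_760060_nt

open Finset

lemma sq_le_two_pow {n : ℕ} (h : 6 ≤ n) : (n + 1) ^ 2 ≤ 2 ^ n := by
  induction n, h using Nat.le_induction with
  | base => norm_num
  | succ n h ih =>
    rw [pow_succ 2]
    nlinarith

lemma log_le_sqrt {x : ℝ} (hx : 0 < x) : Real.log x ≤ 2 * √x := by
  have h1 := Real.log_le_sub_one_of_pos (Real.sqrt_pos.2 hx)
  rw [Real.log_sqrt hx.le] at h1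
  linarith

/-- The choice of the block lengths. -/
lemma params (D : ℕ) (hD : 1 ≤ D) : ∃ k0, ∀ k, k0 ≤ k → ∃ a g l s u : ℕ, k = a + (a + g) ∧
    1 ≤ l ∧ 1 ≤ u ∧ s * (2 * l + 2) ≤ g ∧ 10 * D * (g + l) ≤ a ∧ kap ^ s ≤ 1 / (k : ℝ) ^ 5 ∧
    k ^ 5 ≤ 10 ^ (5 * u) ∧ k ≤ 2 * u ^ 2 * l ∧ (u : ℝ) ≤ 1 + 2 * Real.log k := by
  obtain ⟨C, hC⟩ := exists_pow_lt_of_lt_one (x := (1 / 32 : ℝ)) (y := kap) (by norm_num)
    (by unfold kap; norm_num)
  refine ⟨2 ^ (6 + 40 * D * (4 * C + 2)), fun k hk => ?_⟩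
  have hk0 : k ≠ 0 := by
    have : 0 < 2 ^ (6 + 40 * D * (4 * C + 2)) := by positivity
    omega
  have h1 : 6 + 40 * D * (4 * C + 2) ≤ Nat.log 2 k := Nat.le_log_of_pow_le (by norm_num) hk
  have h2 : 2 ^ Nat.log 2 k ≤ k := Nat.pow_log_le_self 2 hk0
  have h3 : k < 2 ^ (Nat.log 2 k + 1) := Nat.lt_pow_succ_log_self (by norm_num) k
  have h4 := (sq_le_two_pow (n := Nat.log 2 k) (by omega)).trans h2
  have h5 : (Nat.log 2 k : ℝ) ≤ 2 * Real.log k := by
    have a1 : (2 : ℝ) ^ Nat.log 2 k ≤ k := by exact_mod_cast h2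
    have a2 := Real.log_le_log (by positivity) a1
    rw [Real.log_pow] at a2
    have a3 := Real.log_two_gt_d9
    have a4 : (0 : ℝ) ≤ Nat.log 2 k := Nat.cast_nonneg _
    nlinarith
  obtain ⟨u, hu⟩ : ∃ u, u = Nat.log 2 k + 1 := ⟨_, rfl⟩
  rw [← hu] at h3 h4
  have u0 : 0 < u ^ 2 := pow_pos (by omega) 2
  obtain ⟨l, hl⟩ : ∃ l, l = k / u ^ 2 := ⟨_, rfl⟩
  have l1 : 1 ≤ l := hl ▸ Nat.div_pos h4 u0
  have l2 : l * u ^ 2 ≤ k := hl ▸ Nat.div_mul_le_self _ _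
  have l3 : k < l * u ^ 2 + u ^ 2 := hl ▸ Nat.lt_div_mul_add u0
  obtain ⟨Z, hZ⟩ : ∃ Z, Z = C * u * (2 * l + 2) := ⟨_, rfl⟩
  have z1 : Z + 1 + l ≤ (4 * C + 2) * (u * l) := by
    have b1 : Z ≤ C * u * (4 * l) := hZ ▸ Nat.mul_le_mul_left _ (by omega)
    have b2 : l ≤ u * l := Nat.le_mul_of_pos_left _ (by omega)
    nlinarith
  have z2 : 40 * D * (Z + 1 + l) ≤ k := by
    calc 40 * D * (Z + 1 + l) ≤ 40 * D * ((4 * C + 2) * (u * l)) := Nat.mul_le_mul_left _ z1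
      _ = 40 * D * (4 * C + 2) * (u * l) := by ring
      _ ≤ u * (u * l) := Nat.mul_le_mul_right _ (by omega)
      _ = l * u ^ 2 := by ring
      _ ≤ k := l2
  have z3 : 40 * (Z + 1 + l) ≤ k := le_trans (by nlinarith) z2
  refine ⟨(k - Z) / 2, k - 2 * ((k - Z) / 2), l, C * u, u, by omega, l1, by omega, by omega, ?_,
    ?_, ?_, by nlinarith, ?_⟩
  · have b1 : 40 * D * (k - 2 * ((k - Z) / 2) + l) ≤ 40 * D * (Z + 1 + l) :=
      Nat.mul_le_mul_left _ (by omega)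
    have b2 : 40 * D * (k - 2 * ((k - Z) / 2) + l) = 4 * (10 * D * (k - 2 * ((k - Z) / 2) + l)) := by
      ring
    omega
  · have b1 : (k : ℝ) ≤ 2 ^ u := by exact_mod_cast h3.le
    have b0 : (0 : ℝ) < k := by exact_mod_cast Nat.pos_of_ne_zero hk0
    rw [pow_mul]
    refine (pow_le_pow_left₀ (pow_nonneg (by unfold kap; norm_num) _) hC.le u).trans ?_
    rw [one_div_pow]
    refine one_div_le_one_div_of_le (by positivity) ((pow_le_pow_left₀ b0.le b1 5).trans ?_)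
    rw [← pow_mul, mul_comm, pow_mul]
    norm_num
  · rw [mul_comm, pow_mul]
    exact Nat.pow_le_pow_left (h3.le.trans (Nat.pow_le_pow_left (by norm_num) u)) 5
  · rw [hu]
    push_cast
    linarith

/-- The primes that are used. -/
def PP (k l : ℕ) : Finset ℕ :=
  (pr (k ^ 5) (10 ^ l)).filter fun p => ¬ p ^ 2 ∣ 10 ^ (p - 1) - 1 ∧ ¬ p ∣ 10 ^ k - 1

lemma Hs_div {k : ℕ} (hk : 2 ≤ k) : Hs ((10 ^ k - 1).primeFactors.filter (k ^ 5 < ·)) ≤ 1 := by
  have h1 := pow_card_le_prod (10 ^ k - 1).primeFactors (fun p => p) 2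
    fun p hp => (Nat.prime_of_mem_primeFactors hp).two_le
  have h2 := Nat.le_of_dvd (Nat.pos_of_ne_zero (ten_ne (by omega : k ≠ 0)))
    (Nat.prod_primeFactors_dvd (10 ^ k - 1))
  have h3 : 10 ^ k ≤ 2 ^ (4 * k) := by
    rw [pow_mul]
    exact Nat.pow_le_pow_left (by norm_num) k
  have h4 : (10 ^ k - 1).primeFactors.card ≤ 4 * k :=
    (Nat.pow_le_pow_iff_right (show 1 < 2 by norm_num)).1
      (h1.trans (h2.trans ((Nat.sub_le _ _).trans h3)))
  have h5 : 4 * k ≤ k ^ 5 := by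
    have := Nat.pow_le_pow_left hk 4
    rw [pow_succ]
    exact Nat.mul_le_mul_right _ (by omega)
  have h0 : 0 < k ^ 5 := by positivity
  refine (Hs_le_card h0 fun p hp => (mem_filter.1 hp).2.le).trans ?_
  rw [div_le_one (by exact_mod_cast h0)]
  exact_mod_cast (card_filter_le _ _).trans (h4.trans h5)

lemma NW_le {k l u M : ℕ} (hk : 3 ≤ k) (hl : 1 ≤ l) (hlk : l ≤ k) (hu : 1 ≤ u)
    (h1 : k ^ 5 ≤ 10 ^ (5 * u)) (h2 : k ≤ 2 * u ^ 2 * l) (h3 : (u : ℝ) ≤ 1 + 2 * Real.log k)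
    (hL : 1 ≤ Real.log k) (hM : M ≤ 10 ^ (2 * k)) :
    NW M ≤ Hs (PP k l) + 221 * √(Real.log k) := by
  have s1 : NW M ≤ Hs (PP k l ∪ (pr 0 (10 ^ (5 * u)) ∪
      ((10 ^ k - 1).primeFactors.filter (k ^ 5 < ·) ∪ pr (10 ^ l) (10 ^ (2 * k))))) := by
    refine Hs_mono fun p hp => ?_
    simp only [mem_filter, mem_Icc, mem_union, PP, mem_pr, Nat.mem_primeFactors] at hp ⊢
    obtain ⟨⟨a1, a2⟩, a3, a4⟩ := hp
    by_cases c1 : p ≤ k ^ 5
    · exact Or.inr (Or.inl ⟨⟨a1, c1.trans h1⟩, a3⟩)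
    by_cases c2 : p ∣ 10 ^ k - 1
    · exact Or.inr (Or.inr (Or.inl ⟨⟨a3, c2, ten_ne (by omega)⟩, not_le.1 c1⟩))
    by_cases c3 : p ≤ 10 ^ l
    · exact Or.inl ⟨⟨⟨not_le.1 c1, c3⟩, a3⟩, a4, c2⟩
    · exact Or.inr (Or.inr (Or.inr ⟨⟨not_le.1 c3, a2.trans hM⟩, a3⟩))
  have s2 := s1.trans ((Hs_union _ _).trans (add_le_add le_rfl ((Hs_union _ _).trans
    (add_le_add (Hs_all (by omega)) ((Hs_union _ _).trans (add_le_add (Hs_div (by omega))
      (Hs_log hl (by omega))))))))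
  have u0 : (0 : ℝ) < u := by exact_mod_cast hu
  have l0 : (0 : ℝ) < l := by exact_mod_cast hl
  have k0 : (0 : ℝ) < k := by exact_mod_cast (by omega : 0 < k)
  have h2' : (k : ℝ) ≤ 2 * u ^ 2 * l := by exact_mod_cast h2
  have b1 : Real.log ((2 * k : ℕ) / l) ≤ 3 + 2 * Real.log u := by
    have a1 : ((2 * k : ℕ) : ℝ) / l ≤ 4 * u ^ 2 := by
      rw [div_le_iff₀ l0]
      push_cast
      linarith
    refine (Real.log_le_log (by positivity) a1).trans ?_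
    rw [Real.log_mul (by norm_num) (by positivity), Real.log_pow]
    have := Real.log_le_sub_one_of_pos (x := 4) (by norm_num)
    push_cast
    linarith
  have b2 : Real.log (5 * u : ℕ) ≤ 4 + Real.log u := by
    push_cast
    rw [Real.log_mul (by norm_num) u0.ne']
    have := Real.log_le_sub_one_of_pos (x := 5) (by norm_num)
    linarith
  have b3 := log_le_sqrt u0
  have b4 : √(u : ℝ) ≤ 2 * √(Real.log k) := by
    rw [Real.sqrt_le_left (by positivity), mul_pow, Real.sq_sqrt (by linarith)]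
    linarith
  have b5 : 1 ≤ √(Real.log k) := Real.one_le_sqrt.2 hL
  linarith

lemma one_le_log {k : ℕ} (hk : 3 ≤ k) : 1 ≤ Real.log k := by
  have h : (3 : ℝ) ≤ k := by exact_mod_cast hk
  rw [Real.le_log_iff_exp_le (by linarith)]
  linarith [Real.exp_one_lt_d9]

lemma layer (D : ℕ) (hD : 1 ≤ D) : ∃ k0, ∀ k, k0 ≤ k → ∀ M, M ≤ 10 ^ (2 * (k + 1)) →
    (221 + 46 * (D : ℝ) ^ 2) * √(Real.log (k + 1 : ℕ)) ≤ NW M →
    cnt (10 ^ (k + 1)) (fun n => 10 ^ k ≤ n ∧ n ∈ T) ≤ 14 * (10 ^ (k + 1) / D) := by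
  obtain ⟨k0, hk0⟩ := params D hD
  refine ⟨k0 + 2176 * D, fun k' hk' M hM hN => ?_⟩
  obtain ⟨a, g, l, s, u, e, l1, u1, hg, ha, hs, c1, c2, c3⟩ := hk0 (k' + 1) (by omega)
  have hla : g + l ≤ a := le_trans (by nlinarith) ha
  have hY : 10 ^ (k' + 1) ≤ (10 ^ a) ^ 3 := by
    rw [← pow_mul]
    exact Nat.pow_le_pow_right (by norm_num) (by omega)
  have hkk : k' + 1 ≤ (k' + 1) ^ 5 := Nat.le_self_pow (by norm_num) _
  have hL := one_le_log (k := k' + 1) (by omega)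
  have hμ := NW_le (by omega) l1 (by omega) u1 c1 c2 c3 hL hM
  have hσ : 1 ≤ √(Real.log (k' + 1 : ℕ)) := Real.one_le_sqrt.2 hL
  have hσ2 := Real.sq_sqrt (show 0 ≤ Real.log (k' + 1 : ℕ) by linarith)
  have hD' : (1 : ℝ) ≤ D := by exact_mod_cast hD
  have hP : ∀ p ∈ PP (k' + 1) l, p.Prime ∧ (k' + 1) ^ 5 < p ∧ p ≤ 10 ^ l := fun p hp => by
    have := mem_pr.1 (mem_filter.1 hp).1
    exact ⟨this.2, this.1⟩
  have hμ0 := Hs_all (b := a) (by omega)
  have hla' : Real.log a ≤ Real.log (k' + 1 : ℕ) :=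
    Real.log_le_log (by exact_mod_cast (by omega : 0 < a)) (by exact_mod_cast (by omega))
  generalize √(Real.log (k' + 1 : ℕ)) = σ at *
  have hDσ : 1 ≤ (D : ℝ) * σ := by nlinarith
  have hμ1 : 46 * (D : ℝ) ^ 2 * σ ≤ Hs (PP (k' + 1) l) := by linarith
  have hμ2 : (D : ℝ) * σ ≤ D ^ 2 * σ := by nlinarith
  have hμ3 : (D : ℝ) ^ 2 ≤ D ^ 2 * σ := by nlinarith
  have hμ4 : (D : ℝ) ≤ D ^ 2 := by nlinarith
  refine (cnt_T (a := a) (b := a + (g + l)) (D := D) (P := PP (k' + 1) l) (t0 := 6 * (D * σ))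
    (t1 := Hs (PP (k' + 1) l) / 2) hY (fun p hp => ?_) (by linarith)).trans ?_
  · have h1 := hP p hp
    have h2 := (mem_filter.1 hp).2
    exact ⟨h1.1, by omega, by omega, by omega, h2.1, h2.2⟩
  have hk1 : 2176 * D ≤ k' + 1 := by omega
  generalize k' + 1 = k at *
  have hk2 : (2176 : ℝ) * D ≤ k := by exact_mod_cast hk1
  have hk3 : (1 : ℝ) ≤ k := by linarith
  have hX : (0 : ℝ) < 10 ^ k := by positivity
  have hsq : ∀ c ≤ 10 ^ a, c ^ 2 ≤ 10 ^ k := fun c hc => by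
    refine (Nat.pow_le_pow_left hc 2).trans ?_
    rw [← pow_mul]
    exact Nat.pow_le_pow_right (by norm_num) (by omega)
  have hpow : 10 ^ l ≤ 10 ^ a := Nat.pow_le_pow_right (by norm_num) (by omega)
  have fin : ∀ x : ℝ, x * D ≤ 1 → 10 ^ k * x ≤ 10 ^ k / D := fun x hx => by
    rw [le_div_iff₀ (by linarith), mul_assoc]
    exact mul_le_of_le_one_right hX.le hx
  have b0 : cnt (10 ^ k) (fun m => m = 0) ≤ 10 ^ k / D := by
    refine (cnt_zero _).trans ((one_le_div (by linarith)).2 ?_)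
    have : k ≤ 10 ^ k := (Nat.lt_pow_self (by norm_num)).le
    exact_mod_cast (by omega : D ≤ 10 ^ k)
  have b1 : cnt (10 ^ k) (Sq D) ≤ 10 ^ k / D := by
    have := cnt_sq (10 ^ k) (D := D) (by omega)
    push_cast at this
    exact this
  have b2 := (cheb (10 ^ k) (pr 0 (10 ^ a)) (fun _ => pr_prime) (hsq _ (card_pr _ _))
    (t := 6 * (D * σ)) (by linarith)).trans (c := (10 : ℝ) ^ k / D) (by
      push_cast
      rw [mul_div_assoc]
      refine fin _ ?_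
      rw [div_mul_eq_mul_div, div_le_one (by positivity)]
      calc _ ≤ 36 * σ ^ 2 * D ^ 2 := mul_le_mul (by linarith) hμ4 (by linarith) (by positivity)
        _ = _ := by ring)
  have b3 := (cheb (10 ^ k) (PP k l) (fun p hp => (hP p hp).1)
    (hsq _ (((card_filter_le _ _).trans (card_pr _ _)).trans hpow))
    (t := Hs (PP k l) / 2) (by linarith)).trans (c := (10 : ℝ) ^ k / D) (by
      push_cast
      rw [mul_div_assoc]
      refine fin _ ?_
      rw [div_mul_eq_mul_div, div_le_one (pow_pos (by linarith) 2)]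
      calc _ ≤ 2 * Hs (PP k l) * (Hs (PP k l) / 8) :=
            mul_le_mul (by linarith) (by linarith) (by linarith) (by linarith)
        _ = _ := by ring)
  have b4 := (cnt_same (k := k) (W := k ^ 5) (by omega) (by omega) (P := PP k l) fun p hp =>
    ⟨(hP p hp).1, (hP p hp).2.1, (hP p hp).2.2.trans
      (Nat.pow_le_pow_right (by norm_num) (by omega))⟩).trans (c := (10 : ℝ) ^ k / D) (by
      rw [div_mul_eq_mul_div, mul_div_assoc]
      refine fin _ ?_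
      push_cast
      rw [div_mul_eq_mul_div, div_le_one (by positivity)]
      have : (k : ℝ) ≤ k ^ 3 := le_self_pow₀ hk3 (by norm_num)
      calc _ = (k : ℝ) ^ 2 * (16 * D) := by ring
        _ ≤ k ^ 2 * k ^ 3 := by gcongr; linarith
        _ = _ := by ring)
  have b5 := (cnt_mid (10 ^ k) (a := a) (by omega) (g + l)).trans (c := (10 : ℝ) ^ k / D) (by
      rw [Nat.cast_pow, Nat.cast_ofNat]
      refine fin _ ?_
      rw [div_mul_eq_mul_div, div_le_one (by exact_mod_cast (by omega : 0 < a))]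
      exact_mod_cast (by rw [mul_right_comm]; exact ha : 10 * (g + l) * D ≤ a))
  have b6 := cnt_jnt (a := a) (g := g) (W := k ^ 5) (θ := 1 / (k : ℝ) ^ 5) (by omega)
    (by omega : l ≤ a) (by omega) hP hg (by simp) hs
  rw [← e] at b6
  have b7 := b6.trans (fin _ (by
    have e2 : 2176 * (k : ℝ) ^ 4 * (1 / k ^ 5) * D = 2176 * D / k := by field_simp
    rw [e2, div_le_one (by linarith)]
    exact hk2))
  have b8 := (cnt_or (10 ^ k) _ _).trans (add_le_add b0 ((cnt_or _ _ _).trans (add_le_add b1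
    ((cnt_or _ _ _).trans (add_le_add b2 ((cnt_or _ _ _).trans (add_le_add b3
      ((cnt_or _ _ _).trans (add_le_add b4 ((cnt_or _ _ _).trans (add_le_add b5 b7)))))))))))
  have b9 : cnt (10 ^ k) (Bad k a (a + (g + l)) D (10 ^ a) (PP k l) (6 * (D * σ))
    (Hs (PP k l) / 2)) ≤ _ := b8
  linarith

end Pool.Agent.MP_760060_nt
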