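import Pool.Agent.MP_760060_nt.Layer

/-! Summation over the numbers of digits. -/

namespace Pool.Agent.MP_760060_nt

open Finset

lemma S_card {j M : ℕ} (hM : 10 ^ (j + 2) ≤ M) : 10 ^ j ≤ (S ∩ Set.Icc 1 M).ncard := by
  have h := Set.ncard_le_ncard_of_injOn (s := (range (10 ^ j) : Set ℕ)) (t := S ∩ Set.Icc 1 M)
    (fun y => 2 + 10 ^ 1 * (y + 10 ^ j)) (fun y hy => ?_) (fun y _ z _ h => by simpa using h)
    ((Set.finite_Icc 1 M).inter_of_right _)
  · rwa [Set.ncard_coe_finset, card_range] at h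
  have h1 : y < 10 ^ j := by simpa using hy
  have e1 : 10 ^ (j + 1) = 10 * 10 ^ j := pow_succ' _ _
  have e2 : 10 ^ (j + 1 + 1) = 100 * 10 ^ j := by ring
  have e3 : 100 * 10 ^ j ≤ M := e2 ▸ hM
  refine ⟨⟨by omega, ?_⟩, by omega, by omega⟩
  rw [rev_eq (k := j + 1) (by omega) (by omega), add_comm (j + 1) 1, R_add 1 _ _ (by norm_num),
    R_one (by norm_num)]
  omega

lemma T_card (M h k : ℕ) (hM : M < 10 ^ k) : ((T ∩ Set.Icc 1 M).ncard : ℝ) ≤
    10 ^ h + ∑ j ∈ Ico h k, cnt (10 ^ (j + 1)) (fun n => 10 ^ j ≤ n ∧ n ∈ T) := by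
  classical
  have h1 : (T ∩ Set.Icc 1 M).ncard ≤ ((range (10 ^ h)) ∪ (Ico h k).biUnion fun j =>
      (range (10 ^ (j + 1))).filter fun n => 10 ^ j ≤ n ∧ n ∈ T).card := by
    rw [← Set.ncard_coe_finset]
    refine Set.ncard_le_ncard (fun n hn => ?_) (finite_toSet _)
    obtain ⟨h2, h3, h4⟩ := hn
    simp only [coe_union, coe_range, Set.mem_union, Set.mem_Iio, mem_coe, mem_biUnion, mem_Ico,
      mem_filter, mem_range]
    rcases lt_or_ge n (10 ^ h) with h5 | h5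
    · exact Or.inl h5
    · exact Or.inr ⟨Nat.log 10 n, ⟨Nat.le_log_of_pow_le (by norm_num) h5,
        Nat.log_lt_of_lt_pow (by omega) (h4.trans_lt hM)⟩,
        Nat.lt_pow_succ_log_self (by norm_num) n, Nat.pow_log_le_self 10 (by omega), h2⟩
  have h2 := h1.trans ((card_union_le _ _).trans (add_le_add le_rfl card_biUnion_le))
  rw [card_range] at h2
  simp only [cnt_eq]
  exact_mod_cast h2

lemma geom_le (k : ℕ) : ∑ j ∈ range k, (10 : ℝ) ^ (j + 1) ≤ 2 * 10 ^ k := by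
  induction k with
  | zero => simp
  | succ k ih =>
    have : (0 : ℝ) < 10 ^ k := by positivity
    rw [sum_range_succ, pow_succ]
    linarith

theorem main (ε : ℝ) (hε : 0 < ε) : ∃ K : ℝ, ∃ M₀ : ℕ, ∀ M : ℕ, M₀ ≤ M →
    K * √(Real.log (Real.log M)) ≤ NW M →
      ((T ∩ Set.Icc 1 M).ncard : ℝ) ≤ ε * (S ∩ Set.Icc 1 M).ncard := by
  obtain ⟨D, hD⟩ := exists_nat_gt (29000 / ε)
  have hD0 : (0 : ℝ) < D := lt_trans (by positivity) hD
  have hD1 : 1 ≤ D := by exact_mod_cast hD0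
  obtain ⟨k0, hk0⟩ := layer D hD1
  refine ⟨221 + 46 * (D : ℝ) ^ 2, 10 ^ (2 * (k0 + D) + 2), fun M hM hN => ?_⟩
  have hM0 : M ≠ 0 := by
    have : 0 < 10 ^ (2 * (k0 + D) + 2) := by positivity
    omega
  obtain ⟨j, hj⟩ : ∃ j, Nat.log 10 M = j + 2 :=
    Nat.exists_eq_add_of_le' (le_trans (by omega) (Nat.le_log_of_pow_le (by norm_num) hM))
  have h1 : 2 * (k0 + D) ≤ j := by
    have := Nat.le_log_of_pow_le (by norm_num) hM
    omega
  have h2 : 10 ^ (j + 2) ≤ M := hj ▸ Nat.pow_log_le_self 10 hM0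
  have h3 : M < 10 ^ (j + 3) := by
    have := Nat.lt_pow_succ_log_self (b := 10) (by norm_num) M
    rwa [hj] at this
  have h4 : ((j + 3 : ℕ) : ℝ) ≤ Real.log M := by
    have a1 : (10 : ℝ) ^ (j + 2) ≤ M := by exact_mod_cast h2
    have a2 := Real.log_le_log (by positivity) a1
    have a3 : 2 ≤ Real.log 10 := by
      rw [Real.le_log_iff_exp_le (by norm_num), show (2 : ℝ) = (2 : ℕ) * 1 by norm_num,
        Real.exp_nat_mul]
      exact (pow_le_pow_left₀ (Real.exp_pos 1).le Real.exp_one_lt_d9.le 2).trans (by norm_num)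
    rw [Real.log_pow] at a2
    push_cast at a2 ⊢
    nlinarith [(Nat.cast_nonneg j : (0 : ℝ) ≤ j)]
  have h5 : ∑ i ∈ Ico ((j + 3) / 2) (j + 3), cnt (10 ^ (i + 1)) (fun n => 10 ^ i ≤ n ∧ n ∈ T) ≤
      14 * (2 * 10 ^ (j + 3) / D) := by
    refine (sum_le_sum (g := fun i => 14 * ((10 : ℝ) ^ (i + 1) / D)) fun i hi => ?_).trans ?_
    · rw [mem_Ico] at hi
      refine hk0 i (by omega) M (h3.le.trans (Nat.pow_le_pow_right (by norm_num) (by omega)))
        (le_trans (mul_le_mul_of_nonneg_left (Real.sqrt_le_sqrt (Real.log_le_log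
          (by positivity) (le_trans ?_ h4))) (by positivity)) hN)
      exact_mod_cast hi.2
    · rw [← mul_sum, ← sum_div]
      gcongr
      exact (sum_le_sum_of_subset_of_nonneg (fun i hi => mem_range.2 (mem_Ico.1 hi).2)
        fun _ _ _ => by positivity).trans (geom_le _)
  have h6 : (10 : ℝ) ^ ((j + 3) / 2) ≤ 10 ^ (j + 3) / D := by
    rw [le_div_iff₀ hD0]
    have a1 : D ≤ 10 ^ D := (Nat.lt_pow_self (by norm_num)).le
    have a2 : 10 ^ ((j + 3) / 2) * D ≤ 10 ^ (j + 3) := by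
      refine (Nat.mul_le_mul_left _ a1).trans ?_
      rw [← pow_add]
      exact Nat.pow_le_pow_right (by norm_num) (by omega)
    exact_mod_cast a2
  have h7 : (10 : ℝ) ^ j ≤ (S ∩ Set.Icc 1 M).ncard := by exact_mod_cast S_card h2
  refine ((T_card M _ _ h3).trans (add_le_add h6 h5)).trans
    (le_trans ?_ (mul_le_mul_of_nonneg_left h7 hε.le))
  rw [div_lt_iff₀ hε] at hD
  have e : (10 : ℝ) ^ (j + 3) / D + 14 * (2 * 10 ^ (j + 3) / D) = 29000 / D * 10 ^ j := by ring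
  rw [e]
  refine mul_le_mul_of_nonneg_right ?_ (by positivity)
  rw [div_le_iff₀ hD0]
  linarith

end Pool.Agent.MP_760060_nt
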